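import Pool.Agent.Lib.MP_27ef93_an.Ops

/-!
Limits along an ultrafilter, and the projections onto the tails of the basis.
-/

namespace MP27ef93

open Finset Filter Topology

/-- The limit of a sequence of complex numbers along a fixed ultrafilter. -/
noncomputable def ulim (a : ℕ → ℂ) : ℂ := limUnder (hyperfilter ℕ : Filter ℕ) a

theorem tendsto_ulim {a : ℕ → ℂ} {C : ℝ} (h : ∀ n, ‖a n‖ ≤ C) :
    Tendsto a (hyperfilter ℕ : Filter ℕ) (𝓝 (ulim a)) := by
  have hc := isCompact_closedBall (0 : ℂ) C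
  have hm : (((hyperfilter ℕ : Ultrafilter ℕ).map a : Ultrafilter ℂ) : Filter ℂ) ≤
      𝓟 (Metric.closedBall 0 C) := by
    rw [le_principal_iff]
    exact Filter.mem_map.mpr (Filter.univ_mem' fun n => by simpa using h n)
  obtain ⟨x, _, hx⟩ := hc.ultrafilter_le_nhds _ hm
  exact tendsto_nhds_limUnder ⟨x, hx⟩

theorem ulim_eq {a : ℕ → ℂ} {x : ℂ} (h : Tendsto a (hyperfilter ℕ : Filter ℕ) (𝓝 x)) :
    ulim a = x := h.limUnder_eq

theorem ulim_eq_of_tendsto {a : ℕ → ℂ} {x : ℂ} (h : Tendsto a atTop (𝓝 x)) : ulim a = x :=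
  ulim_eq (h.mono_left Nat.hyperfilter_le_atTop)

theorem norm_ulim_le {a : ℕ → ℂ} {C : ℝ} (h : ∀ n, ‖a n‖ ≤ C) : ‖ulim a‖ ≤ C :=
  le_of_tendsto (tendsto_ulim h).norm (Eventually.of_forall h)

theorem ulim_add {a b : ℕ → ℂ} {C D : ℝ} (ha : ∀ n, ‖a n‖ ≤ C) (hb : ∀ n, ‖b n‖ ≤ D) :
    ulim (fun n => a n + b n) = ulim a + ulim b :=
  ulim_eq ((tendsto_ulim ha).add (tendsto_ulim hb))

theorem ulim_mul_left {a : ℕ → ℂ} {C : ℝ} (c : ℂ) (ha : ∀ n, ‖a n‖ ≤ C) :
    ulim (fun n => c * a n) = c * ulim a :=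
  ulim_eq ((tendsto_ulim ha).const_mul c)

theorem ulim_sum {ι : Type*} (s : Finset ι) {a : ι → ℕ → ℂ} {C : ι → ℝ}
    (ha : ∀ i n, ‖a i n‖ ≤ C i) :
    ulim (fun n => ∑ i ∈ s, a i n) = ∑ i ∈ s, ulim (a i) :=
  ulim_eq (tendsto_finsetSum s fun i _ => tendsto_ulim (ha i))

theorem ext_basis {F : Type*} [NormedAddCommGroup F] [NormedSpace ℂ F] {f g : H2 →L[ℂ] F}
    (h : ∀ m, f (bv m) = g (bv m)) : f = g := by
  apply lp.ext_continuousLinearMap (by simp)
  intro m
  ext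
  simp only [ContinuousLinearMap.comp_apply, lp.singleContinuousLinearMap_apply]
  exact h m

/-- The projection onto the tail, on square summable sequences. -/
theorem exists_tail2 : ∃ Q : ℕ → (H2 →L[ℂ] H2), (∀ m, ‖Q m‖ ≤ 1) ∧
    (∀ m n (ξ : H2), (Q m ξ) n = if m ≤ n then ξ n else 0) := by
  classical
  have h : ∀ m : ℕ, PM (fun n k => if n = k ∧ m ≤ n then (1 : ℂ) else 0) := by
    intro m
    refine ⟨fun n k => ?_, fun n k k' h h' => ?_, fun n n' k h h' => ?_⟩
    · split_ifs <;> simp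
    · simp only [ne_eq, ite_eq_right_iff, one_ne_zero, imp_false, not_not] at h h'
      exact h.1.symm.trans h'.1
    · simp only [ne_eq, ite_eq_right_iff, one_ne_zero, imp_false, not_not] at h h'
      exact h.1.trans h'.1.symm
  choose Q hQ1 hQ2 using fun m => exists_op (h m)
  refine ⟨Q, hQ1, fun m n ξ => ?_⟩
  have h1 : (lp.evalCLM ℂ (fun _ : ℕ => ℂ) 2 n).comp (Q m) =
      (if m ≤ n then (1 : ℂ) else 0) • (lp.evalCLM ℂ (fun _ : ℕ => ℂ) 2 n) := by
    apply ext_basis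
    intro k
    have h2 := hQ2 m n k
    unfold co at h2
    change (Q m (bv k)) n = (if m ≤ n then (1 : ℂ) else 0) * (bv k) n
    rw [h2]
    by_cases hnk : n = k
    · subst hnk
      rw [bv, lp.single_apply_self]
      simp
    · rw [bv, lp.single_apply_ne _ _ _ hnk]
      simp [hnk]
  have h3 := congrArg (fun f => f ξ) h1
  change (Q m ξ) n = (if m ≤ n then (1 : ℂ) else 0) * ξ n at h3
  rw [h3]
  split_ifs <;> simp

theorem tail2_tendsto {Q : ℕ → (H2 →L[ℂ] H2)} (h1 : ∀ m, ‖Q m‖ ≤ 1)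
    (h2 : ∀ m n (ξ : H2), (Q m ξ) n = if m ≤ n then ξ n else 0) (ξ : H2) :
    Tendsto (fun m => Q m ξ) atTop (𝓝 0) := by
  have h3 : Tendsto (fun m : ℕ => ∑ n ∈ Finset.range m, lp.single 2 n (ξ n)) atTop (𝓝 ξ) :=
    (lp.hasSum_single (by simp) ξ).tendsto_sum_nat
  have h4 : ∀ m, Q m ξ = Q m (ξ - ∑ n ∈ Finset.range m, lp.single 2 n (ξ n)) := by
    intro m
    rw [map_sub]
    have h5 : Q m (∑ n ∈ Finset.range m, lp.single 2 n (ξ n)) = 0 := by
      ext n
      rw [h2]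
      split_ifs with hmn
      · rw [lp.coeFn_sum, Finset.sum_apply, lp.coeFn_zero, Pi.zero_apply]
        apply Finset.sum_eq_zero
        intro k hk
        rw [Finset.mem_range] at hk
        rw [lp.single_apply_ne]
        omega
      · rfl
    rw [h5, sub_zero]
  rw [tendsto_zero_iff_norm_tendsto_zero]
  have h6 : Tendsto (fun m : ℕ => ‖ξ - ∑ n ∈ Finset.range m, lp.single 2 n (ξ n)‖) atTop (𝓝 0) := by
    have := (tendsto_const_nhds (x := ξ)).sub h3
    rw [sub_self] at this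
    simpa using this.norm
  refine squeeze_zero (fun m => norm_nonneg _) (fun m => ?_) h6
  rw [h4 m]
  refine ((Q m).le_opNorm _).trans ?_
  calc _ ≤ 1 * ‖ξ - ∑ n ∈ Finset.range m, lp.single 2 n (ξ n)‖ := by
        gcongr
        exact h1 m
    _ = _ := one_mul _

section

variable {H : Type*} [NormedAddCommGroup H] [InnerProductSpace ℂ H]

/-- The projections onto the tails. -/
theorem exists_tail (U : H ≃ₗᵢ[ℂ] H2) : ∃ Q : ℕ → (H →L[ℂ] H), (∀ m, ‖Q m‖ ≤ 1) ∧
    (∀ m (T : H →L[ℂ] H) n k, m ≤ n → cH U ((Q m).comp T) n k = cH U T n k) ∧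
    (∀ K : H →L[ℂ] H, IsCompactOperator K → Tendsto (fun m => (Q m).comp K) atTop (𝓝 0)) := by
  obtain ⟨Q, h1, h2⟩ := exists_tail2
  have h3 : ∀ m, ‖cjs U (Q m)‖ ≤ 1 := fun m => (norm_cjs_le U _).trans (h1 m)
  refine ⟨fun m => cjs U (Q m), h3, ?_, ?_⟩
  · intro m T n k hmn
    unfold cH bH
    rw [ContinuousLinearMap.comp_apply, cjs_apply, U.symm.inner_map_map, inner_bv, h2, if_pos hmn,
      ← inner_bv, ← U.symm.inner_map_map]
    simp
  · intro K hK
    rw [tendsto_zero_iff_norm_tendsto_zero, Metric.tendsto_atTop]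
    intro ε hε
    have h4 : TotallyBounded (K '' Metric.closedBall 0 1) := by
      obtain ⟨C, hC, hC2⟩ := hK.image_closedBall_subset_compact (f := (K : H →ₗ[ℂ] H)) 1
      exact hC.totallyBounded.subset hC2
    rw [Metric.totallyBounded_iff] at h4
    obtain ⟨t, ht, ht2⟩ := h4 (ε / 4) (by positivity)
    have h5 : ∀ ξ ∈ t, ∀ᶠ m in atTop, ‖cjs U (Q m) ξ‖ < ε / 4 := by
      intro ξ _
      have h6 := (tail2_tendsto h1 h2 (U ξ)).norm
      rw [norm_zero] at h6
      filter_upwards [h6.eventually (gt_mem_nhds (by positivity : (0 : ℝ) < ε / 4))] with m hm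
      rw [cjs_apply, LinearIsometryEquiv.norm_map]
      exact hm
    have h7 : ∀ᶠ m in atTop, ∀ ξ ∈ t, ‖cjs U (Q m) ξ‖ < ε / 4 :=
      (Filter.eventually_all_finite ht).mpr h5
    obtain ⟨M, hM⟩ := Filter.eventually_atTop.mp h7
    refine ⟨M, fun m hm => ?_⟩
    have h8 : ‖(cjs U (Q m)).comp K‖ ≤ ε / 2 := by
      apply ContinuousLinearMap.opNorm_le_of_unit_norm (by positivity)
      intro x hx
      have h9 : K x ∈ K '' Metric.closedBall 0 1 := ⟨x, by simp [hx], rfl⟩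
      have h10 := ht2 h9
      simp only [Set.mem_iUnion, Metric.mem_ball, exists_prop] at h10
      obtain ⟨ξ, hξ, hξ2⟩ := h10
      rw [dist_eq_norm] at hξ2
      have h11 : (cjs U (Q m)).comp K x = cjs U (Q m) ξ + cjs U (Q m) (K x - ξ) := by
        rw [ContinuousLinearMap.comp_apply, map_sub]
        abel
      rw [h11]
      refine (norm_add_le _ _).trans ?_
      have h12 := hM m hm ξ hξ
      have h13 : ‖cjs U (Q m) (K x - ξ)‖ ≤ ‖K x - ξ‖ := by
        refine ((cjs U (Q m)).le_opNorm _).trans ?_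
        calc _ ≤ 1 * ‖K x - ξ‖ := by
              gcongr
              exact h3 m
          _ = _ := one_mul _
      linarith
    rw [Real.dist_eq, sub_zero, abs_of_nonneg (norm_nonneg _)]
    linarith

end

end MP27ef93
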