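import Pool.Agent.Lib.MP_27ef93_an.Defs
import Pool.Agent.Lib.MP_27ef93_an.Tail

/-!
From local reflexivity of the maximal structure of `V` to approximate liftings of maps from
quotients of `V`.
-/

namespace MP27ef93

open Finset Filter Topology
open scoped ENNReal

theorem enorm_le_ofReal {z : ℂ} {C : ℝ} (h : ‖z‖ ≤ C) : ‖z‖ₑ ≤ ENNReal.ofReal C := by
  rw [← ofReal_norm]
  exact ENNReal.ofReal_le_ofReal h

theorem norm_le_of_enorm {z : ℂ} {C : ℝ} (hC : 0 ≤ C) (h : ‖z‖ₑ ≤ ENNReal.ofReal C) : ‖z‖ ≤ C := by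
  rw [← ofReal_norm] at h
  exact (ENNReal.ofReal_le_ofReal_iff hC).mp h

section OpN

variable {ι K : Type*} [Fintype ι] [NormedAddCommGroup K] [InnerProductSpace ℂ K]

theorem le_opN (x : Matrix ι ι (K →L[ℂ] K)) (ζ η : ι → K) (hζ : ∑ i, ‖ζ i‖ ^ 2 ≤ 1)
    (hη : ∑ i, ‖η i‖ ^ 2 ≤ 1) : ‖∑ i, ∑ j, inner ℂ (ζ i) (x i j (η j))‖ₑ ≤ opN x := by
  unfold opN
  exact le_iSup_of_le ζ (le_iSup_of_le η (le_iSup_of_le hζ (le_iSup_of_le hη le_rfl)))

theorem opN_le (x : Matrix ι ι (K →L[ℂ] K)) {C : ℝ} (h : ∀ ζ η : ι → K, ∑ i, ‖ζ i‖ ^ 2 ≤ 1 →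
    ∑ i, ‖η i‖ ^ 2 ≤ 1 → ‖∑ i, ∑ j, inner ℂ (ζ i) (x i j (η j))‖ ≤ C) :
    opN x ≤ ENNReal.ofReal C := by
  unfold opN
  exact iSup_le fun ζ => iSup_le fun η => iSup_le fun hζ => iSup_le fun hη =>
    enorm_le_ofReal (h ζ η hζ hη)

theorem le_scN (x : Matrix ι ι ℂ) (ζ η : ι → ℂ) (hζ : ∑ i, ‖ζ i‖ ^ 2 ≤ 1)
    (hη : ∑ i, ‖η i‖ ^ 2 ≤ 1) :
    ‖∑ i, ∑ j, starRingEnd ℂ (ζ i) * (x i j * η j)‖ₑ ≤ scN x := by
  unfold scN
  exact le_iSup_of_le ζ (le_iSup_of_le η (le_iSup_of_le hζ (le_iSup_of_le hη le_rfl)))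

theorem scN_le (x : Matrix ι ι ℂ) {C : ℝ≥0∞} (h : ∀ ζ η : ι → ℂ, ∑ i, ‖ζ i‖ ^ 2 ≤ 1 →
    ∑ i, ‖η i‖ ^ 2 ≤ 1 → ‖∑ i, ∑ j, starRingEnd ℂ (ζ i) * (x i j * η j)‖ₑ ≤ C) :
    scN x ≤ C := by
  unfold scN
  exact iSup_le fun ζ => iSup_le fun η => iSup_le fun hζ => iSup_le fun hη => h ζ η hζ hη

end OpN

section Rep

variable (Z : Type) [NormedAddCommGroup Z] [NormedSpace ℂ Z]

/-- The contractive linear maps into the operators on Euclidean spaces. -/
def Rep : Type :=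
  Σ N : ℕ, {w : Z →ₗ[ℂ] (EuclideanSpace ℂ (Fin N) →L[ℂ] EuclideanSpace ℂ (Fin N)) //
    ∀ y, ‖w y‖ ≤ ‖y‖}

/-- The sum of all the Euclidean spaces. -/
abbrev BigK : Type := lp (fun i : Rep Z => EuclideanSpace ℂ (Fin i.1)) 2

theorem J_bound (y : Z) (ξ : BigK Z) (s : Finset (Rep Z)) :
    ∑ i ∈ s, ‖i.2.1 y (ξ i)‖ ^ ENNReal.toReal 2 ≤ (‖y‖ * ‖ξ‖) ^ ENNReal.toReal 2 := by
  have h1 : ∀ i ∈ s, ‖i.2.1 y (ξ i)‖ ^ ENNReal.toReal 2 ≤
      ‖y‖ ^ ENNReal.toReal 2 * ‖ξ i‖ ^ ENNReal.toReal 2 := by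
    intro i _
    rw [← Real.mul_rpow (norm_nonneg _) (norm_nonneg _)]
    apply Real.rpow_le_rpow (norm_nonneg _) _ (by simp)
    refine ((i.2.1 y).le_opNorm _).trans ?_
    gcongr
    exact i.2.2 y
  refine (Finset.sum_le_sum h1).trans ?_
  rw [← Finset.mul_sum, Real.mul_rpow (norm_nonneg _) (norm_nonneg _)]
  gcongr
  exact lp.sum_rpow_le_norm_rpow (by simp) ξ s

theorem exists_J : ∃ J : Z →ₗ[ℂ] (BigK Z →L[ℂ] BigK Z), (∀ y, ‖J y‖ ≤ ‖y‖) ∧
    ∀ y ξ i, (J y ξ) i = i.2.1 y (ξ i) := by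
  have hmem : ∀ (y : Z) (ξ : BigK Z), Memℓp (fun i : Rep Z => i.2.1 y (ξ i)) 2 :=
    fun y ξ => memℓp_gen' (J_bound Z y ξ)
  let T : Z → BigK Z →ₗ[ℂ] BigK Z := fun y =>
    { toFun := fun ξ => ⟨fun i => i.2.1 y (ξ i), hmem y ξ⟩
      map_add' := by
        intro ξ η
        apply lp.ext
        funext i
        change i.2.1 y ((ξ + η : BigK Z) i) = i.2.1 y (ξ i) + i.2.1 y (η i)
        rw [lp.coeFn_add, Pi.add_apply, map_add]
      map_smul' := by
        intro c ξ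
        apply lp.ext
        funext i
        change i.2.1 y ((c • ξ : BigK Z) i) = c • i.2.1 y (ξ i)
        rw [lp.coeFn_smul, Pi.smul_apply, map_smul] }
  have hT : ∀ y ξ, ‖T y ξ‖ ≤ ‖y‖ * ‖ξ‖ := by
    intro y ξ
    exact lp.norm_le_of_forall_sum_le (by simp) (by positivity) (J_bound Z y ξ)
  have happ : ∀ y ξ i, (T y ξ) i = i.2.1 y (ξ i) := fun y ξ i => rfl
  refine ⟨{ toFun := fun y => (T y).mkContinuous ‖y‖ (hT y)
            map_add' := ?_
            map_smul' := ?_ }, ?_, ?_⟩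
  · intro y z
    apply ContinuousLinearMap.ext
    intro ξ
    apply lp.ext
    funext i
    change i.2.1 (y + z) (ξ i) = i.2.1 y (ξ i) + i.2.1 z (ξ i)
    rw [map_add]
    rfl
  · intro c y
    apply ContinuousLinearMap.ext
    intro ξ
    apply lp.ext
    funext i
    change i.2.1 (c • y) (ξ i) = c • i.2.1 y (ξ i)
    rw [map_smul]
    rfl
  · intro y
    exact LinearMap.mkContinuous_norm_le _ (norm_nonneg _) (hT y)
  · intro y ξ i
    rfl

theorem J_injective {J : Z →ₗ[ℂ] (BigK Z →L[ℂ] BigK Z)}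
    (hJ : ∀ y ξ i, (J y ξ) i = i.2.1 y (ξ i)) : Function.Injective J := by
  classical
  rw [← LinearMap.ker_eq_bot, LinearMap.ker_eq_bot']
  intro y hy
  by_contra hne
  obtain ⟨g, hg1, hg2⟩ := exists_dual_vector ℂ y (norm_ne_zero_iff.mpr hne)
  let w : Z →ₗ[ℂ] (EuclideanSpace ℂ (Fin 1) →L[ℂ] EuclideanSpace ℂ (Fin 1)) :=
    { toFun := fun z => g z • ContinuousLinearMap.id ℂ (EuclideanSpace ℂ (Fin 1))
      map_add' := by
        intro a b
        apply ContinuousLinearMap.ext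
        intro ξ
        change g (a + b) • ξ = g a • ξ + g b • ξ
        rw [map_add, add_smul]
      map_smul' := by
        intro c a
        apply ContinuousLinearMap.ext
        intro ξ
        change g (c • a) • ξ = c • (g a • ξ)
        rw [map_smul, smul_eq_mul, mul_smul] }
  have hw : ∀ z, ‖w z‖ ≤ ‖z‖ := by
    intro z
    apply ContinuousLinearMap.opNorm_le_bound _ (norm_nonneg _)
    intro ξ
    change ‖g z • ξ‖ ≤ ‖z‖ * ‖ξ‖
    rw [norm_smul]
    gcongr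
    refine (g.le_opNorm z).trans ?_
    rw [hg1, one_mul]
  let i0 : Rep Z := ⟨1, w, hw⟩
  let e0 : EuclideanSpace ℂ (Fin 1) := EuclideanSpace.single 0 1
  have h3 := hJ y (lp.single 2 i0 e0) i0
  rw [hy, lp.single_apply_self] at h3
  have h4 : (0 : EuclideanSpace ℂ (Fin 1)) = g y • e0 := h3
  rw [hg2] at h4
  have h5 : ‖((‖y‖ : ℝ) : ℂ) • e0‖ = 0 := by
    rw [← norm_zero (E := EuclideanSpace ℂ (Fin 1)), h4]
    rfl
  rw [norm_smul] at h5
  have h6 : ‖e0‖ = 1 := by simp [e0]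
  rw [h6, mul_one, Complex.norm_real, norm_norm] at h5
  exact hne (norm_eq_zero.mp h5)

end Rep

section Dual

variable {V : Type*} [NormedAddCommGroup V] [NormedSpace ℂ V]

theorem exists_UL (P : ℕ → V →L[ℂ] V) (hP : ∀ m, ‖P m‖ ≤ 1) :
    ∃ L : V →ₗ[ℂ] StrongDual ℂ (StrongDual ℂ V), ∀ T φ, L T φ = ulim (fun m => φ (P m T)) := by
  have hb : ∀ (T : V) (φ : StrongDual ℂ V) (m : ℕ), ‖φ (P m T)‖ ≤ ‖T‖ * ‖φ‖ := by
    intro T φ m
    refine (φ.le_opNorm _).trans ?_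
    rw [mul_comm]
    gcongr
    refine ((P m).le_opNorm _).trans ?_
    calc _ ≤ 1 * ‖T‖ := by
          gcongr
          exact hP m
      _ = _ := one_mul _
  let F : V → StrongDual ℂ V →ₗ[ℂ] ℂ := fun T =>
    { toFun := fun φ => ulim (fun m => φ (P m T))
      map_add' := by
        intro φ ψ
        exact ulim_add (hb T φ) (hb T ψ)
      map_smul' := by
        intro c φ
        exact ulim_mul_left c (hb T φ) }
  refine ⟨{ toFun := fun T => (F T).mkContinuous ‖T‖ (fun φ => norm_ulim_le (hb T φ))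
            map_add' := ?_
            map_smul' := ?_ }, ?_⟩
  · intro T S
    apply ContinuousLinearMap.ext
    intro φ
    change ulim (fun m => φ (P m (T + S))) = ulim (fun m => φ (P m T)) + ulim (fun m => φ (P m S))
    rw [← ulim_add (hb T φ) (hb S φ)]
    simp only [map_add]
  · intro c T
    apply ContinuousLinearMap.ext
    intro φ
    change ulim (fun m => φ (P m (c • T))) = c * ulim (fun m => φ (P m T))
    rw [← ulim_mul_left c (hb T φ)]
    simp only [map_smul, smul_eq_mul]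
  · intro T φ
    rfl

/-- A completely contractive matrix of functionals defines a contraction. -/
theorem dual_bound {m : ℕ} (f : Matrix (Fin m) (Fin m) (StrongDual ℂ V))
    (hf : dualN (maxN V) m f ≤ 1) (T : V) (ζ η : Fin m → ℂ) (hζ : ∑ i, ‖ζ i‖ ^ 2 ≤ 1)
    (hη : ∑ i, ‖η i‖ ^ 2 ≤ 1) :
    ‖∑ k, ∑ l, starRingEnd ℂ (ζ k) * (f k l T * η l)‖ ≤ ‖T‖ := by
  -- the case of norm at most one
  have key : ∀ T : V, ‖T‖ ≤ 1 →
      ‖∑ k, ∑ l, starRingEnd ℂ (ζ k) * (f k l T * η l)‖ ≤ 1 := by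
    intro T hT
    have h1 : maxN V 1 (fun _ _ => T) ≤ 1 := by
      unfold maxN contrN
      refine iSup_le fun K => iSup_le fun _ => iSup_le fun _ => iSup_le fun _ =>
        iSup_le fun w => iSup_le fun hw => ?_
      rw [← ENNReal.ofReal_one]
      apply opN_le
      intro a b ha hb
      rw [Fin.sum_univ_one, Fin.sum_univ_one]
      rw [Fin.sum_univ_one] at ha hb
      have ha' : ‖a 0‖ ≤ 1 := by nlinarith [norm_nonneg (a 0)]
      have hb' : ‖b 0‖ ≤ 1 := by nlinarith [norm_nonneg (b 0)]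
      change ‖inner ℂ (a 0) (w T (b 0))‖ ≤ 1
      refine (norm_inner_le_norm _ _).trans ?_
      have h2 : ‖w T (b 0)‖ ≤ 1 := by
        refine ((w T).le_opNorm _).trans ?_
        exact mul_le_one₀ ((hw T).trans hT) (norm_nonneg _) hb'
      exact mul_le_one₀ ha' (norm_nonneg _) h2
    have h3 : scN (fun p q : Fin m × Fin 1 => f p.1 q.1 T) ≤ 1 := by
      refine le_trans ?_ hf
      unfold dualN
      exact le_iSup_of_le 1 (le_iSup_of_le (fun _ _ => T) (le_iSup_of_le h1 le_rfl))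
    have h4 := (le_scN (fun p q : Fin m × Fin 1 => f p.1 q.1 T) (fun p => ζ p.1) (fun p => η p.1)
      (by rw [Fintype.sum_prod_type]; simpa using hζ)
      (by rw [Fintype.sum_prod_type]; simpa using hη)).trans h3
    rw [← ENNReal.ofReal_one] at h4
    have h5 := norm_le_of_enorm zero_le_one h4
    simpa [Fintype.sum_prod_type] using h5
  by_cases hT : ‖T‖ = 0
  · have h0 : T = 0 := norm_eq_zero.mp hT
    subst h0
    simp
  · have hpos : 0 < ‖T‖ := lt_of_le_of_ne (norm_nonneg _) (Ne.symm hT)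
    have h1 := key ((((‖T‖)⁻¹ : ℝ) : ℂ) • T) (by
      rw [norm_smul, Complex.norm_real, Real.norm_eq_abs, abs_of_pos (by positivity),
        inv_mul_cancel₀ hT])
    have h2 : ∑ k, ∑ l, starRingEnd ℂ (ζ k) * (f k l ((((‖T‖)⁻¹ : ℝ) : ℂ) • T) * η l) =
        (((‖T‖)⁻¹ : ℝ) : ℂ) * ∑ k, ∑ l, starRingEnd ℂ (ζ k) * (f k l T * η l) := by
      rw [Finset.mul_sum]
      apply Finset.sum_congr rfl
      intro k _
      rw [Finset.mul_sum]
      apply Finset.sum_congr rfl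
      intro l _
      rw [map_smul, smul_eq_mul]
      ring
    rw [h2, norm_mul, Complex.norm_real, Real.norm_eq_abs, abs_of_pos (by positivity),
      inv_mul_le_iff₀ hpos, mul_one] at h1
    exact h1

end Dual

section Euclid

theorem inner_w {m : ℕ} (M : Matrix (Fin m) (Fin m) ℂ) (a b : EuclideanSpace ℂ (Fin m)) :
    inner ℂ a (Matrix.toEuclideanCLM (n := Fin m) (𝕜 := ℂ) M b) =
      ∑ k, ∑ l, starRingEnd ℂ (a k) * (M k l * b l) := by
  rw [PiLp.inner_apply]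
  apply Finset.sum_congr rfl
  intro k _
  rw [RCLike.inner_apply, ← Finset.mul_sum, mul_comm]
  rfl

theorem norm_w_le {m : ℕ} (M : Matrix (Fin m) (Fin m) ℂ) {C : ℝ} (hC : 0 ≤ C)
    (h : ∀ ζ η : Fin m → ℂ, ∑ i, ‖ζ i‖ ^ 2 ≤ 1 → ∑ i, ‖η i‖ ^ 2 ≤ 1 →
      ‖∑ k, ∑ l, starRingEnd ℂ (ζ k) * (M k l * η l)‖ ≤ C) :
    ‖Matrix.toEuclideanCLM (n := Fin m) (𝕜 := ℂ) M‖ ≤ C := by
  apply ContinuousLinearMap.opNorm_le_of_unit_norm hC
  intro b hb
  by_cases hc : ‖Matrix.toEuclideanCLM (n := Fin m) (𝕜 := ℂ) M b‖ = 0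
  · rw [hc]
    exact hC
  · set c := Matrix.toEuclideanCLM (n := Fin m) (𝕜 := ℂ) M b with hcdef
    have hpos : 0 < ‖c‖ := lt_of_le_of_ne (norm_nonneg _) (Ne.symm hc)
    set a : EuclideanSpace ℂ (Fin m) := (((‖c‖)⁻¹ : ℝ) : ℂ) • c with ha
    have han : ‖a‖ = 1 := by
      rw [ha, norm_smul, Complex.norm_real, Real.norm_eq_abs, abs_of_pos (by positivity),
        inv_mul_cancel₀ hc]
    have h1 := h a b (by rw [← EuclideanSpace.norm_sq_eq, han]; norm_num)
      (by rw [← EuclideanSpace.norm_sq_eq, hb]; norm_num)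
    rw [← inner_w, ← hcdef, ha, inner_smul_left, Complex.conj_ofReal, inner_self_eq_norm_sq_to_K,
      norm_mul, Complex.norm_real, Real.norm_eq_abs, abs_of_pos (by positivity)] at h1
    have h2 : ‖((‖c‖ : ℝ) : ℂ) ^ 2‖ = ‖c‖ * ‖c‖ := by
      rw [norm_pow, Complex.norm_real, norm_norm, sq]
    have h3 : (‖c‖)⁻¹ * ‖((‖c‖ : ℝ) : ℂ) ^ 2‖ = ‖c‖ := by
      rw [h2, ← mul_assoc, inv_mul_cancel₀ hc, one_mul]
    have h4 : (‖c‖)⁻¹ * ‖((‖c‖ : ℝ) : ℂ) ^ 2‖ ≤ C := h1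
    rwa [h3] at h4

end Euclid

section Main

variable {V Z : Type} [NormedAddCommGroup V] [NormedSpace ℂ V] [NormedAddCommGroup Z]
  [NormedSpace ℂ Z]

/-- The contraction on the quotient that a contractive matrix of functionals defines. -/
theorem quot_bound {P : ℕ → V →L[ℂ] V} (hP : ∀ m, ‖P m‖ ≤ 1)
    {L : V →ₗ[ℂ] StrongDual ℂ (StrongDual ℂ V)} (hL : ∀ T φ, L T φ = ulim (fun m => φ (P m T)))
    {q : V →ₗ[ℂ] Z} (hq1 : ∀ (T : V) (ε : ℝ), 0 < ε → ∃ T', q T' = q T ∧ ‖T'‖ ≤ ‖q T‖ + ε)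
    (hq2 : ∀ T, q T = 0 → Tendsto (fun m => P m T) atTop (𝓝 0))
    {m : ℕ} (f : Matrix (Fin m) (Fin m) (StrongDual ℂ V))
    (hf : dualN (maxN V) m f ≤ 1) (T : V) (ζ η : Fin m → ℂ) (hζ : ∑ i, ‖ζ i‖ ^ 2 ≤ 1)
    (hη : ∑ i, ‖η i‖ ^ 2 ≤ 1) :
    ‖∑ k, ∑ l, starRingEnd ℂ (ζ k) * (L T (f k l) * η l)‖ ≤ ‖q T‖ := by
  have hb : ∀ (T : V) (φ : StrongDual ℂ V) (m : ℕ), ‖φ (P m T)‖ ≤ ‖φ‖ * ‖T‖ := by
    intro T φ m
    refine (φ.le_opNorm _).trans ?_
    gcongr
    refine ((P m).le_opNorm _).trans ?_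
    calc _ ≤ 1 * ‖T‖ := by
          gcongr
          exact hP m
      _ = _ := one_mul _
  have h0 : ∀ T, q T = 0 → ∀ φ, L T φ = 0 := by
    intro T hT φ
    rw [hL]
    apply ulim_eq_of_tendsto
    have := (φ.continuous.tendsto 0).comp (hq2 T hT)
    rw [map_zero] at this
    exact this
  have h1 : ∀ T : V, ‖∑ k, ∑ l, starRingEnd ℂ (ζ k) * (L T (f k l) * η l)‖ ≤ ‖T‖ := by
    intro T
    have h2 : Tendsto (fun n => ‖∑ k, ∑ l, starRingEnd ℂ (ζ k) * (f k l (P n T) * η l)‖)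
        (hyperfilter ℕ : Filter ℕ)
        (𝓝 ‖∑ k, ∑ l, starRingEnd ℂ (ζ k) * (L T (f k l) * η l)‖) := by
      apply Tendsto.norm
      refine tendsto_finsetSum _ fun k _ => tendsto_finsetSum _ fun l _ => ?_
      apply Tendsto.const_mul
      apply Tendsto.mul_const
      rw [hL]
      exact tendsto_ulim (hb T (f k l))
    refine le_of_tendsto h2 (Eventually.of_forall fun n => ?_)
    refine (dual_bound f hf (P n T) ζ η hζ hη).trans ?_
    refine ((P n).le_opNorm _).trans ?_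
    calc _ ≤ 1 * ‖T‖ := by
          gcongr
          exact hP n
      _ = _ := one_mul _
  apply le_of_forall_pos_le_add
  intro ε hε
  obtain ⟨T', hT', hT'2⟩ := hq1 T ε hε
  have h3 : ∀ φ, L T' φ = L T φ := by
    intro φ
    have := h0 (T' - T) (by rw [map_sub, hT', sub_self]) φ
    rw [map_sub] at this
    exact sub_eq_zero.mp this
  have h4 := (h1 T').trans hT'2
  simpa only [h3] using h4

/-- The main transfer: local reflexivity gives approximations of the limit functional. -/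
theorem abs_approx {P : ℕ → V →L[ℂ] V} (hP : ∀ m, ‖P m‖ ≤ 1)
    {q : V →ₗ[ℂ] Z} (hq0 : Function.Surjective q)
    (hq1 : ∀ (T : V) (ε : ℝ), 0 < ε → ∃ T', q T' = q T ∧ ‖T'‖ ≤ ‖q T‖ + ε)
    (hq2 : ∀ T, q T = 0 → Tendsto (fun m => P m T) atTop (𝓝 0))
    {J : Z →ₗ[ℂ] (BigK Z →L[ℂ] BigK Z)} (hJ : ∀ y ξ i, (J y ξ) i = i.2.1 y (ξ i))
    {C : ℝ} (hLR : LocallyReflexive (maxN V) C) (E : Submodule ℂ Z) [FiniteDimensional ℂ E] :
    ∃ l : Filter (E →ₗ[ℂ] V), l.NeBot ∧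
      (∀ᶠ v in l, CbLe (indN (J ∘ₗ E.subtype)) (maxN V) v C) ∧
      ∀ (x : E) (T : V) (_ : q T = x) (f : StrongDual ℂ V),
        Tendsto (fun v => f (v x)) l (𝓝 (ulim (fun m => f (P m T)))) := by
  classical
  obtain ⟨L, hL⟩ := exists_UL P hP
  obtain ⟨s, hs⟩ := LinearMap.exists_rightInverse_of_surjective q (LinearMap.range_eq_top.mpr hq0)
  have hs' : ∀ y, q (s y) = y := fun y => by
    rw [← LinearMap.comp_apply, hs, LinearMap.id_apply]
  have h0 : ∀ T, q T = 0 → ∀ φ, L T φ = 0 := by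
    intro T hT φ
    rw [hL]
    apply ulim_eq_of_tendsto
    have := (φ.continuous.tendsto 0).comp (hq2 T hT)
    rw [map_zero] at this
    exact this
  obtain ⟨l, hl1, hl2, hl3⟩ := hLR E (BigK Z) (J ∘ₗ E.subtype) (L ∘ₗ s ∘ₗ E.subtype)
    ((J_injective Z hJ).comp Subtype.val_injective) (by
      intro n x
      rw [ENNReal.ofReal_one, one_mul]
      unfold dualN
      refine iSup_le fun m => iSup_le fun f => iSup_le fun hf => ?_
      -- the representation given by `f`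
      let w : Z →ₗ[ℂ] (EuclideanSpace ℂ (Fin m) →L[ℂ] EuclideanSpace ℂ (Fin m)) :=
        { toFun := fun y => Matrix.toEuclideanCLM (n := Fin m) (𝕜 := ℂ)
            (Matrix.of fun k l => L (s y) (f k l))
          map_add' := by
            intro a b
            rw [← map_add]
            congr 1
            ext k l
            simp
          map_smul' := by
            intro c a
            rw [RingHom.id_apply, ← map_smul]
            congr 1
            ext k l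
            simp }
      have hw : ∀ y, ‖w y‖ ≤ ‖y‖ := by
        intro y
        refine norm_w_le _ (norm_nonneg _) fun ζ η hζ hη => ?_
        have := quot_bound hP hL hq1 hq2 f hf (s y) ζ η hζ hη
        rw [hs'] at this
        exact this
      let i0 : Rep Z := ⟨m, w, hw⟩
      refine scN_le _ fun ζ η hζ hη => ?_
      have hnorm : ∀ ζ : Fin n × Fin m → ℂ, ∑ p, ‖ζ p‖ ^ 2 ≤ 1 → ∑ i : Fin n,
          ‖(lp.single 2 i0 (WithLp.toLp 2 (fun k => ζ (i, k)) : EuclideanSpace ℂ (Fin m)) :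
            BigK Z)‖ ^ 2 ≤ 1 := by
        intro ζ hζ
        refine le_trans (le_of_eq ?_) hζ
        rw [Fintype.sum_prod_type]
        apply Finset.sum_congr rfl
        intro i _
        rw [lp.norm_single (by simp), EuclideanSpace.norm_sq_eq]
      refine le_trans (le_of_eq ?_) (le_opN (x.map (J ∘ₗ E.subtype))
        (fun i => lp.single 2 i0 (WithLp.toLp 2 (fun k => ζ (i, k)) : EuclideanSpace ℂ (Fin m)))
        (fun i => lp.single 2 i0 (WithLp.toLp 2 (fun k => η (i, k)) : EuclideanSpace ℂ (Fin m)))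
        (hnorm ζ hζ) (hnorm η hη))
      congr 1
      rw [Fintype.sum_prod_type]
      apply Finset.sum_congr rfl
      intro i _
      have h3 : ∀ j, inner ℂ
          (lp.single 2 i0 (WithLp.toLp 2 (fun k => ζ (i, k)) : EuclideanSpace ℂ (Fin m)) : BigK Z)
          (x.map (J ∘ₗ E.subtype) i j
            (lp.single 2 i0 (WithLp.toLp 2 (fun k => η (j, k)) : EuclideanSpace ℂ (Fin m)))) =
          ∑ k, ∑ l, starRingEnd ℂ (ζ (i, k)) * (L (s (x i j)) (f k l) * η (j, l)) := by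
        intro j
        rw [lp.inner_single_left]
        have h4 : (x.map (J ∘ₗ E.subtype) i j
            (lp.single 2 i0 (WithLp.toLp 2 (fun k => η (j, k)) : EuclideanSpace ℂ (Fin m)))) i0 =
            w (x i j) (WithLp.toLp 2 (fun k => η (j, k))) := by
          have h5 := hJ (x i j)
            (lp.single 2 i0 (WithLp.toLp 2 (fun k => η (j, k)) : EuclideanSpace ℂ (Fin m))) i0
          rw [lp.single_apply_self] at h5
          exact h5
        rw [h4]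
        exact inner_w _ _ _
      simp only [h3]
      rw [Finset.sum_comm, Fintype.sum_prod_type]
      apply Finset.sum_congr rfl
      intro j _
      rw [Finset.sum_comm]
      rfl)
  refine ⟨l, hl1, hl2, fun x T hT f => ?_⟩
  have h1 := hl3 x f
  have h2 : (L ∘ₗ s ∘ₗ E.subtype) x f = ulim (fun m => f (P m T)) := by
    rw [← hL]
    have := h0 (s x - T) (by rw [map_sub, hs', hT, sub_self]) f
    rw [map_sub] at this
    exact sub_eq_zero.mp this
  rwa [h2] at h1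

end Main

end MP27ef93
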