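import Mathlib

/-!
Operator spaces: matrix norms, maximal structure, dual structure, local reflexivity.
All matrix norms are written as extended non-negative reals, so that suprema need no
boundedness conditions.
-/

namespace MP27ef93

open scoped ENNReal

/-- The norm of a square matrix of bounded operators on the Hilbert space `K`, as an operator on
the Hilbert sum of copies of `K`. -/
noncomputable def opN {ι K : Type*} [Fintype ι] [NormedAddCommGroup K] [InnerProductSpace ℂ K]
    (x : Matrix ι ι (K →L[ℂ] K)) : ℝ≥0∞ :=
  ⨆ (ζ : ι → K) (η : ι → K) (_ : ∑ i, ‖ζ i‖ ^ 2 ≤ 1) (_ : ∑ i, ‖η i‖ ^ 2 ≤ 1),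
    ‖∑ i, ∑ j, inner ℂ (ζ i) (x i j (η j))‖ₑ

/-- The norm of a square matrix of complex numbers, as an operator on the Euclidean space. -/
noncomputable def scN {ι : Type*} [Fintype ι] (c : Matrix ι ι ℂ) : ℝ≥0∞ :=
  ⨆ (ζ : ι → ℂ) (η : ι → ℂ) (_ : ∑ i, ‖ζ i‖ ^ 2 ≤ 1) (_ : ∑ i, ‖η i‖ ^ 2 ≤ 1),
    ‖∑ i, ∑ j, starRingEnd ℂ (ζ i) * (c i j * η j)‖ₑ

/-- A family of norms on the square matrices over `V`, one for every size. -/
abbrev MatNorms (V : Type*) : Type _ := ∀ n : ℕ, Matrix (Fin n) (Fin n) V → ℝ≥0∞

/-- The completely bounded norm of `u` is at most `C`. -/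
def CbLe {V W : Type*} [AddCommGroup V] [Module ℂ V] [AddCommGroup W] [Module ℂ W]
    (N : MatNorms V) (M : MatNorms W) (u : V →ₗ[ℂ] W) (C : ℝ) : Prop :=
  ∀ (n : ℕ) (x : Matrix (Fin n) (Fin n) V), M n (x.map u) ≤ ENNReal.ofReal C * N n x

/-- The matrix norms on `E` induced by a linear embedding of `E` into the bounded operators
on `K`. -/
noncomputable def indN {E K : Type*} [AddCommGroup E] [Module ℂ E] [NormedAddCommGroup K]
    [InnerProductSpace ℂ K] (i : E →ₗ[ℂ] (K →L[ℂ] K)) : MatNorms E :=
  fun _ x => opN (x.map i)

/-- The supremum of the norms of the images of a matrix over `F` under all linear contractions of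
`F` into the bounded operators on `K`. -/
noncomputable def contrN {F : Type*} [NormedAddCommGroup F] [NormedSpace ℂ F] (K : Type)
    [NormedAddCommGroup K] [InnerProductSpace ℂ K] : MatNorms F :=
  fun _ x => ⨆ (w : F →ₗ[ℂ] (K →L[ℂ] K)) (_ : ∀ y, ‖w y‖ ≤ ‖y‖), opN (x.map w)

/-- The maximal operator space structure of the normed space `F`: the supremum over all linear
contractions of `F` into the bounded operators on a Hilbert space `K`, and over all `K`. -/
noncomputable def maxN (F : Type*) [NormedAddCommGroup F] [NormedSpace ℂ F] : MatNorms F :=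
  fun n x => ⨆ (K : Type) (_ : NormedAddCommGroup K) (_ : InnerProductSpace ℂ K)
    (_ : CompleteSpace K), contrN K n x

/-- The matrix norms of the dual: a matrix of functionals is normed as the completely bounded map
into the scalar matrices that it defines. -/
noncomputable def dualN {V : Type*} [NormedAddCommGroup V] [NormedSpace ℂ V] (N : MatNorms V) :
    MatNorms (StrongDual ℂ V) :=
  fun n f => ⨆ (m : ℕ) (x : Matrix (Fin m) (Fin m) V) (_ : N m x ≤ 1),
    scN (fun p q : Fin n × Fin m => f p.1 q.1 (x p.2 q.2))

/-- There is a net of linear maps from `E` to `V` (here: a filter on the linear maps) of completely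
bounded norm at most `C` which converges to `u` pointwise in the topology of the bidual given by
the dual. -/
def ApproxBy {E V : Type*} [AddCommGroup E] [Module ℂ E] [NormedAddCommGroup V] [NormedSpace ℂ V]
    (M : MatNorms E) (N : MatNorms V) (C : ℝ) (u : E →ₗ[ℂ] StrongDual ℂ (StrongDual ℂ V)) : Prop :=
  ∃ l : Filter (E →ₗ[ℂ] V), l.NeBot ∧ (∀ᶠ v in l, CbLe M N v C) ∧
    ∀ (x : E) (f : StrongDual ℂ V), Filter.Tendsto (fun v => f (v x)) l (nhds (u x f))

/-- The condition of local reflexivity for the embeddings of the space `E` into the bounded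
operators on the Hilbert space `K`. -/
def LocReflAt {V : Type*} [NormedAddCommGroup V] [NormedSpace ℂ V] (N : MatNorms V) (C : ℝ)
    (E : Type) [AddCommGroup E] [Module ℂ E]
    (K : Type) [NormedAddCommGroup K] [InnerProductSpace ℂ K] : Prop :=
  ∀ (i : E →ₗ[ℂ] (K →L[ℂ] K)) (u : E →ₗ[ℂ] StrongDual ℂ (StrongDual ℂ V)),
    Function.Injective i → CbLe (indN i) (dualN (dualN N)) u 1 → ApproxBy (indN i) N C u

/-- The space `V` with the matrix norms `N` is locally reflexive with constant `C`: for every
finite-dimensional operator space `E` (a finite-dimensional space embedded into the bounded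
operators on a Hilbert space `K`) and every completely contractive map `u` from `E` to the
bidual there is an approximating net of maps with completely bounded norm at most `C`. -/
def LocallyReflexive {V : Type*} [NormedAddCommGroup V] [NormedSpace ℂ V] (N : MatNorms V)
    (C : ℝ) : Prop :=
  ∀ (E : Type) [AddCommGroup E] [Module ℂ E] [FiniteDimensional ℂ E]
    (K : Type) [NormedAddCommGroup K] [InnerProductSpace ℂ K] [CompleteSpace K],
    LocReflAt N C E K

end MP27ef93
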