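import Mathlib

/-!
A finite group generated by involutions without short relations.
-/

namespace MP27ef93

/-- Words of length at most `L` in which neighbouring letters are different. -/
abbrev Wd (Λ : Type) (L : ℕ) : Type := {l : List Λ // l.length ≤ L ∧ l.IsChain (· ≠ ·)}

instance {Λ : Type} [Finite Λ] {L : ℕ} : Finite (Wd Λ L) :=
  Set.Finite.subset (List.finite_length_le Λ L) (fun _ h => h.1)

open Classical in
/-- Remove or add the letter `X` at the front. -/
noncomputable def tog {Λ : Type} {L : ℕ} (X : Λ) (w : Wd Λ L) : Wd Λ L :=
  if h : w.1.head? = some X then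
    ⟨w.1.tail, by
      have := w.2.1
      simp only [List.length_tail]
      omega, w.2.2.tail⟩
  else if h2 : w.1.length < L then
    ⟨X :: w.1, by simpa using h2, by
      rw [List.isChain_cons]
      refine ⟨?_, w.2.2⟩
      intro y hy he
      apply h
      rw [he]
      exact hy⟩
  else w

theorem tog_tog {Λ : Type} {L : ℕ} (X : Λ) (w : Wd Λ L) : tog X (tog X w) = w := by
  obtain ⟨l, hl, hc⟩ := w
  by_cases h : l.head? = some X
  · obtain ⟨t, rfl⟩ : ∃ t, l = X :: t := by
      cases l with
      | nil => simp at h
      | cons y t => exact ⟨t, by simp at h; rw [h]⟩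
    have h1 : tog X (⟨X :: t, hl, hc⟩ : Wd Λ L) = ⟨t, by simp at hl; omega, hc.tail⟩ := by
      unfold tog
      simp
    rw [h1]
    have h3 : t.head? ≠ some X := by
      intro h4
      rw [List.isChain_cons] at hc
      exact hc.1 X (by simp [h4]) rfl
    unfold tog
    have h5 : t.length < L := by simp at hl; omega
    simp [h3, h5]
  · by_cases h2 : l.length < L
    · have h1 : tog X (⟨l, hl, hc⟩ : Wd Λ L) = ⟨X :: l, by simpa using h2, by
          rw [List.isChain_cons]
          refine ⟨?_, hc⟩
          intro y hy he
          apply h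
          rw [he]
          exact hy⟩ := by
        unfold tog
        simp [h, h2]
      rw [h1]
      unfold tog
      simp
    · have h1 : tog X (⟨l, hl, hc⟩ : Wd Λ L) = ⟨l, hl, hc⟩ := by
        unfold tog
        simp [h, h2]
      rw [h1, h1]

/-- The involution attached to a letter. -/
noncomputable def pr {Λ : Type} {L : ℕ} (X : Λ) : Equiv.Perm (Wd Λ L) where
  toFun := tog X
  invFun := tog X
  left_inv := tog_tog X
  right_inv := tog_tog X

theorem pr_mul_pr {Λ : Type} {L : ℕ} (X : Λ) : (pr X * pr X : Equiv.Perm (Wd Λ L)) = 1 := by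
  ext w : 1
  exact tog_tog X w

theorem prod_nil {Λ : Type} {L : ℕ} : ∀ (u : List Λ) (h1 : u.length ≤ L)
    (h2 : u.IsChain (· ≠ ·)),
    (u.map (pr (L := L))).prod ⟨[], by simp, by simp⟩ = ⟨u, h1, h2⟩
  | [], _, _ => by simp
  | X :: u, h1, h2 => by
    have h3 : u.length < L := by simpa using h1
    rw [List.map_cons, List.prod_cons, Equiv.Perm.mul_apply, prod_nil u h3.le h2.tail]
    change tog X _ = _
    have h4 : u.head? ≠ some X := by
      intro h4
      rw [List.isChain_cons] at h2
      exact h2.1 X (by simp [h4]) rfl
    unfold tog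
    simp [h3, h4]

theorem prod_ne_one {Λ : Type} {L : ℕ} (u : List Λ) (h1 : u.length ≤ L)
    (h2 : u.IsChain (· ≠ ·)) (h3 : u ≠ []) : (u.map (pr (L := L))).prod ≠ 1 := by
  intro h
  have h4 := prod_nil u h1 h2
  rw [h] at h4
  have h5 := congrArg Subtype.val h4
  exact h3 h5.symm

/-- Counting functions with prescribed values on a list of different points. -/
theorem card_presc {C Z : Type} [Fintype C] [Fintype Z] :
    ∀ (K : List (C × Z)), (K.map Prod.fst).Nodup →
      Nat.card {s : C → Z // ∀ x ∈ K, s x.1 = x.2} * Nat.card Z ^ K.length ≤ Nat.card (C → Z)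
  | [], _ => by
    simp only [List.not_mem_nil, false_imp_iff, implies_true, List.length_nil, pow_zero, mul_one]
    exact Nat.card_le_card_of_injective (fun s => s.1) Subtype.val_injective
  | (c, t) :: K, h => by
    classical
    simp only [List.map_cons, List.nodup_cons] at h
    have ih := card_presc K h.2
    have h1 : Nat.card {s : C → Z // ∀ x ∈ (c, t) :: K, s x.1 = x.2} * Nat.card Z ≤
        Nat.card {s : C → Z // ∀ x ∈ K, s x.1 = x.2} := by
      rw [← Nat.card_prod]
      apply Nat.card_le_card_of_injective
        (fun p : {s : C → Z // ∀ x ∈ (c, t) :: K, s x.1 = x.2} × Z =>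
          (⟨Function.update p.1.1 c p.2, by
            intro x hx
            have hne : x.1 ≠ c := by
              intro he
              apply h.1
              rw [← he]
              exact List.mem_map_of_mem hx
            rw [Function.update_of_ne hne]
            exact p.1.2 x (List.mem_cons_of_mem _ hx)⟩ :
              {s : C → Z // ∀ x ∈ K, s x.1 = x.2}))
      rintro ⟨⟨s, hs⟩, z⟩ ⟨⟨s', hs'⟩, z'⟩ he
      simp only [Subtype.mk.injEq] at he
      have hz : z = z' := by
        have := congrFun he c
        simpa using this
      have hss : s = s' := by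
        funext x
        by_cases hx : x = c
        · subst hx
          have e1 := hs (x, t) List.mem_cons_self
          have e2 := hs' (x, t) List.mem_cons_self
          simp only at e1 e2
          rw [e1, e2]
        · have := congrFun he x
          simpa [Function.update_of_ne hx] using this
      subst hz hss
      rfl
    calc Nat.card {s : C → Z // ∀ x ∈ (c, t) :: K, s x.1 = x.2} *
          Nat.card Z ^ ((c, t) :: K).length
        = (Nat.card {s : C → Z // ∀ x ∈ (c, t) :: K, s x.1 = x.2} * Nat.card Z) *
          Nat.card Z ^ K.length := by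
          rw [List.length_cons, pow_succ]
          ring
      _ ≤ Nat.card {s : C → Z // ∀ x ∈ K, s x.1 = x.2} * Nat.card Z ^ K.length :=
          Nat.mul_le_mul_right _ h1
      _ ≤ _ := ih

end MP27ef93
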