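import Pool.Agent.Lib.MP_27ef93_an.Graph
import Pool.Agent.Lib.MP_27ef93_an.Words

/-!
Existence of a large typed graph which has only short agreeing walks with a given one.
-/

namespace MP27ef93

open Finset

section
variable {d : ℕ} [NeZero d]

instance : NeZero (4 * d * d) := ⟨by have := NeZero.ne d; positivity⟩
instance : NeZero (2 * d) := ⟨by have := NeZero.ne d; positivity⟩

/-- Letters. -/
abbrev Lt (d : ℕ) := Ty d × Fin d

/-- The group. -/
abbrev Gp (d L : ℕ) := Equiv.Perm (Wd (Lt d) L)

/-- The type through a label with a given slope. -/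
def tyOf (d : ℕ) (a : Fin d) (l : ZMod (4 * d * d)) (y : Bool × ZMod (2 * d)) : Ty d :=
  (l - ((a : ℕ) : ZMod (4 * d * d)) * ((slope d y : ℕ) : ZMod (4 * d * d)), y)

theorem lab_tyOf (a : Fin d) (l : ZMod (4 * d * d)) (y : Bool × ZMod (2 * d)) :
    lab d (tyOf d a l y) a = l := by
  unfold lab tyOf
  ring

theorem tyOf_lab (a : Fin d) (t : Ty d) : tyOf d a (lab d t a) t.2 = t := by
  unfold lab tyOf
  ext <;> simp

/-- Cells. -/
abbrev Cell (d L : ℕ) := (Fin d × ZMod (4 * d * d)) × Gp d L

/-- The cell of a vertex in a direction. -/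
noncomputable def cell {L : ℕ} (a : Fin d) (v : Ty d × Gp d L) : Cell d L :=
  ((a, lab d v.1 a), pr (v.1, a) * v.2)

/-- The new slope. -/
def nsl (s : ZMod (2 * d)) (y : Bool × ZMod (2 * d)) : Bool × ZMod (2 * d) :=
  (!y.1, if y.1 then y.2 - s else y.2 + s)

theorem nsl_nsl (s : ZMod (2 * d)) (y : Bool × ZMod (2 * d)) : nsl s (nsl s y) = y := by
  obtain ⟨b, y⟩ := y
  cases b <;> simp [nsl]

/-- The step. -/
noncomputable def stp {L : ℕ} (s : Cell d L → ZMod (2 * d)) (a : Fin d) (v : Ty d × Gp d L) :
    Ty d × Gp d L :=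
  (tyOf d a (lab d v.1 a) (nsl (s (cell a v)) v.1.2),
    pr (tyOf d a (lab d v.1 a) (nsl (s (cell a v)) v.1.2), a) * (pr (v.1, a) * v.2))

theorem cell_stp {L : ℕ} (s : Cell d L → ZMod (2 * d)) (a : Fin d) (v : Ty d × Gp d L) :
    cell a (stp s a v) = cell a v := by
  unfold cell
  simp only [stp]
  rw [lab_tyOf, ← mul_assoc (pr _) (pr _), pr_mul_pr, one_mul]

theorem stp_stp {L : ℕ} (s : Cell d L → ZMod (2 * d)) (a : Fin d) (v : Ty d × Gp d L) :
    stp s a (stp s a v) = v := by
  have h1 : (stp s a (stp s a v)).1 = v.1 := by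
    conv_lhs => rw [stp]
    simp only
    rw [cell_stp]
    have e1 : lab d (stp s a v).1 a = lab d v.1 a := by
      unfold stp
      simp only
      rw [lab_tyOf]
    have e2 : (stp s a v).1.2 = nsl (s (cell a v)) v.1.2 := rfl
    rw [e1, e2, nsl_nsl, tyOf_lab]
  have h2 : (stp s a (stp s a v)).2 = pr ((stp s a (stp s a v)).1, a) *
      (pr ((stp s a v).1, a) * (stp s a v).2) := rfl
  have h3 : (stp s a v).2 = pr ((stp s a v).1, a) * (pr (v.1, a) * v.2) := rfl
  refine Prod.ext h1 ?_
  have h4 : ∀ (X : Lt d) (g : Gp d L), pr X * (pr X * g) = g := fun X g => by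
    rw [← mul_assoc, pr_mul_pr, one_mul]
  rw [h2, h1, h3, h4, h4]

noncomputable instance (d L : ℕ) [NeZero d] : Fintype (Gp d L) := Fintype.ofFinite _

/-- The full graph. -/
noncomputable def FG (d L : ℕ) [NeZero d] (s : Cell d L → ZMod (2 * d)) : TG d where
  V := Ty d × Gp d L
  fin := inferInstance
  ty := Prod.fst
  mv := fun a v => some (stp s a v)
  sym := by
    intro a v w h
    obtain rfl : stp s a v = w := by simpa using h
    rw [stp_stp]
  labEq := by
    intro a v w h
    obtain rfl : stp s a v = w := by simpa using h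
    unfold stp
    simp only
    rw [lab_tyOf]
  side := by
    intro a v w h
    obtain rfl : stp s a v = w := by simpa using h
    simp [stp, tyOf, nsl]

/-- Agreement along a list of directions. -/
def AL {d : ℕ} (P Q : TG d) : P.V → Q.V → List (Fin d) → Prop
  | v, w, [] => P.ty v = Q.ty w
  | v, w, a :: as => P.ty v = Q.ty w ∧ ∃ v' w', P.mv a v = some v' ∧
      Q.mv a w = some w' ∧ AL P Q v' w' as

theorem AW_AL {d : ℕ} {P Q : TG d} : ∀ {n : ℕ} {v : P.V} {w : Q.V} {b : Option (Fin d)},
    AW P Q n v w b → ∃ as : List (Fin d), as.length = n ∧ as.IsChain (· ≠ ·) ∧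
      (∀ a, as.head? = some a → some a ≠ b) ∧ AL P Q v w as
  | 0, v, w, b, h => ⟨[], rfl, by simp, by simp, h⟩
  | n + 1, v, w, b, h => by
    obtain ⟨h1, a, hab, v', w', hv, hw, h2⟩ := h
    obtain ⟨as, hl, hc, hh, hA⟩ := AW_AL h2
    refine ⟨a :: as, by simp [hl], ?_, ?_, h1, v', w', hv, hw, hA⟩
    · rw [List.isChain_cons]
      refine ⟨fun y hy he => ?_, hc⟩
      exact hh y hy (by rw [he])
    · intro c hc
      simp only [List.head?_cons, Option.some.injEq] at hc
      rw [← hc]
      exact hab

/-- The cells and the values forced by an agreeing walk. -/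
noncomputable def cl {L : ℕ} (P : TG d) : P.V → Gp d L → List (Fin d) →
    List (Cell d L × ZMod (2 * d))
  | _, _, [] => []
  | v, g, a :: as => match P.mv a v with
    | none => []
    | some v' => (cell a (P.ty v, g),
        if (P.ty v).2.1 then (P.ty v).2.2 - (P.ty v').2.2 else (P.ty v').2.2 - (P.ty v).2.2) ::
        cl P v' (pr (P.ty v', a) * (pr (P.ty v, a) * g)) as

theorem cl_spec {L : ℕ} (P : TG d) (s : Cell d L → ZMod (2 * d)) :
    ∀ (as : List (Fin d)) (v : P.V) (g : Gp d L), AL P (FG d L s) v (P.ty v, g) as →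
      (∀ x ∈ cl P v g as, s x.1 = x.2) ∧ (cl P v g as).length = as.length
  | [], v, g, _ => by simp [cl]
  | a :: as, v, g, h => by
    obtain ⟨-, v', w', hv, hw, h2⟩ := h
    obtain rfl : stp s a (P.ty v, g) = w' := Option.some.inj hw
    have hty : P.ty v' = (stp s a (P.ty v, g)).1 := by
      cases as with
      | nil => exact h2
      | cons b bs => exact h2.1
    have hst : stp s a (P.ty v, g) = (P.ty v', pr (P.ty v', a) * (pr (P.ty v, a) * g)) := by
      refine Prod.ext hty.symm ?_
      have h3 : (stp s a (P.ty v, g)).2 = pr ((stp s a (P.ty v, g)).1, a) *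
          (pr (P.ty v, a) * g) := rfl
      rw [h3, ← hty]
    rw [hst] at h2
    have ih := cl_spec P s as v' _ h2
    have hcl : cl P v g (a :: as) = (cell a (P.ty v, g),
        if (P.ty v).2.1 then (P.ty v).2.2 - (P.ty v').2.2 else (P.ty v').2.2 - (P.ty v).2.2) ::
        cl P v' (pr (P.ty v', a) * (pr (P.ty v, a) * g)) as := by
      simp only [cl, hv]
    rw [hcl]
    refine ⟨?_, by simp [ih.2]⟩
    intro x hx
    rw [List.mem_cons] at hx
    rcases hx with rfl | hx
    · simp only
      have h4 : (P.ty v').2 = nsl (s (cell a (P.ty v, g))) (P.ty v).2 := by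
        rw [hty]
        rfl
      rw [h4]
      unfold nsl
      simp only
      split_ifs <;> ring
    · exact ih.1 x hx

/-- Shape of the cells on a walk. -/
theorem cl_shape {L : ℕ} (P : TG d) : ∀ (as : List (Fin d)) (v : P.V) (g : Gp d L),
    as.IsChain (· ≠ ·) → ∀ x ∈ cl P v g as, ∃ (a : Fin d) (u : List (Lt d)),
      as.head? = some a ∧ u.IsChain (· ≠ ·) ∧ u.getLast? = some (P.ty v, a) ∧
      u.length + 1 ≤ 2 * as.length ∧ x.1.2 = (u.map pr).prod * g
  | [], v, g, _, x, hx => by simp [cl] at hx
  | a :: as, v, g, hc, x, hx => by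
    refine ⟨a, ?_⟩
    cases hv : P.mv a v with
    | none =>
      simp [cl, hv] at hx
    | some v' =>
      have hcl : cl P v g (a :: as) = (cell a (P.ty v, g),
          if (P.ty v).2.1 then (P.ty v).2.2 - (P.ty v').2.2 else (P.ty v').2.2 - (P.ty v).2.2) ::
          cl P v' (pr (P.ty v', a) * (pr (P.ty v, a) * g)) as := by
        simp only [cl, hv]
      rw [hcl, List.mem_cons] at hx
      rcases hx with rfl | hx
      · refine ⟨[(P.ty v, a)], by simp, by simp, by simp, by simp, ?_⟩
        simp [cell]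
      · obtain ⟨b, u, hb, huc, hul, hlen, hx2⟩ := cl_shape P as v' _ hc.tail x hx
        have hba : a ≠ b := by
          rw [List.isChain_cons] at hc
          exact hc.1 b hb
        refine ⟨u ++ [(P.ty v', a), (P.ty v, a)], by simp, ?_, by simp, ?_, ?_⟩
        · rw [List.isChain_append]
          refine ⟨huc, ?_, ?_⟩
          · simp only [List.isChain_cons_cons, List.IsChain.singleton, and_true]
            intro he
            have := P.side a v v' hv
            rw [Prod.mk.injEq] at he
            rw [he.1] at this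
            simp at this
          · intro x hx y hy he
            rw [hul] at hx
            simp only [List.head?_cons, Option.mem_some_iff] at hx hy
            rw [← hx, ← hy, Prod.mk.injEq] at he
            exact hba he.2.symm
        · simp only [List.length_append, List.length_cons, List.length_nil]
          omega
        · rw [hx2]
          simp [mul_assoc]

theorem cl_nodup {L : ℕ} (P : TG d) : ∀ (as : List (Fin d)) (v : P.V) (g : Gp d L),
    as.IsChain (· ≠ ·) → 2 * as.length ≤ L → ((cl P v g as).map Prod.fst).Nodup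
  | [], v, g, _, _ => by simp [cl]
  | a :: as, v, g, hc, hL => by
    cases hv : P.mv a v with
    | none => simp [cl, hv]
    | some v' =>
      have hcl : cl P v g (a :: as) = (cell a (P.ty v, g),
          if (P.ty v).2.1 then (P.ty v).2.2 - (P.ty v').2.2 else (P.ty v').2.2 - (P.ty v).2.2) ::
          cl P v' (pr (P.ty v', a) * (pr (P.ty v, a) * g)) as := by
        simp only [cl, hv]
      rw [hcl, List.map_cons, List.nodup_cons]
      simp only [List.length_cons] at hL
      refine ⟨?_, cl_nodup P as v' _ hc.tail (by omega)⟩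
      intro hmem
      rw [List.mem_map] at hmem
      obtain ⟨x, hx, hxe⟩ := hmem
      obtain ⟨b, u, hb, huc, hul, hlen, hx2⟩ := cl_shape P as v' _ hc.tail x hx
      have hba : a ≠ b := by
        rw [List.isChain_cons] at hc
        exact hc.1 b hb
      rw [hxe] at hx2
      have h1 : ((u ++ [(P.ty v', a)]).map (pr (L := L))).prod = 1 := by
        have h2 : (u.map pr).prod * (pr (P.ty v', a) * (pr (P.ty v, a) * g)) =
            pr (P.ty v, a) * g := hx2.symm
        rw [← mul_assoc] at h2
        have h3 := mul_eq_right.mp h2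
        simpa using h3
      refine prod_ne_one (u ++ [(P.ty v', a)]) ?_ ?_ (by simp) h1
      · simp only [List.length_append, List.length_cons, List.length_nil]
        omega
      · rw [List.isChain_append]
        refine ⟨huc, by simp, ?_⟩
        intro x hx y hy he
        rw [hul] at hx
        simp only [List.head?_cons, Option.mem_some_iff] at hx hy
        rw [← hx, ← hy, Prod.mk.injEq] at he
        exact hba he.2.symm

/-- Few functions give an agreeing walk along a given list of directions. -/
theorem card_AL {L : ℕ} (P : TG d) (as : List (Fin d)) (v : P.V) (g : Gp d L)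
    (hc : as.IsChain (· ≠ ·)) (hL : 2 * as.length ≤ L) :
    Nat.card {s : Cell d L → ZMod (2 * d) // AL P (FG d L s) v (P.ty v, g) as} *
      (2 * d) ^ as.length ≤ Nat.card (Cell d L → ZMod (2 * d)) := by
  by_cases hne : Nonempty {s : Cell d L → ZMod (2 * d) // AL P (FG d L s) v (P.ty v, g) as}
  · obtain ⟨s0, hs0⟩ := hne
    have hlen := (cl_spec P s0 as v g hs0).2
    have h1 := card_presc (cl P v g as) (cl_nodup P as v g hc hL)
    rw [hlen, Nat.card_zmod] at h1
    refine le_trans (Nat.mul_le_mul_right _ ?_) h1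
    apply Nat.card_le_card_of_injective
      (fun s : {s : Cell d L → ZMod (2 * d) // AL P (FG d L s) v (P.ty v, g) as} =>
        (⟨s.1, (cl_spec P s.1 as v g s.2).1⟩ :
          {s : Cell d L → ZMod (2 * d) // ∀ x ∈ cl P v g as, s x.1 = x.2}))
    intro s s' h
    exact Subtype.ext (by simpa using h)
  · rw [not_nonempty_iff] at hne
    rw [Nat.card_of_isEmpty]
    simp

open Classical in
/-- The deleted first edges of long agreeing walks. -/
noncomputable def Dl {L : ℕ} (P : TG d) (n : ℕ) (s : Cell d L → ZMod (2 * d)) :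
    Finset ((Ty d × Gp d L) × Fin d) :=
  Finset.univ.filter (fun x => ∃ (v : P.V) (as : List (Fin d)), as.length = n ∧
    as.IsChain (· ≠ ·) ∧ as.head? = some x.2 ∧ P.ty v = x.1.1 ∧ AL P (FG d L s) v x.1 as)

theorem Dl_card {L : ℕ} (P : TG d) (n : ℕ) (hL : 2 * n ≤ L) :
    ∃ s : Cell d L → ZMod (2 * d), (Dl P n s).card * (2 * d) ^ n ≤
      Fintype.card P.V * Fintype.card (Gp d L) * d ^ n := by
  classical
  let R : (Cell d L → ZMod (2 * d)) → (P.V × Gp d L × List.Vector (Fin d) n) → Prop :=
    fun s x => x.2.2.toList.IsChain (· ≠ ·) ∧ AL P (FG d L s) x.1 (P.ty x.1, x.2.1) x.2.2.toList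
  have h1 : ∀ s, (Dl P n s).card ≤ (Finset.univ.filter (fun x => R s x)).card := by
    intro s
    rcases (Dl P n s).eq_empty_or_nonempty with h0 | h0
    · rw [h0]
      simp
    obtain ⟨x0, -⟩ := h0
    apply Finset.card_le_card_of_surjOn
      (fun x => (((P.ty x.1, x.2.1), x.2.2.toList.head?.getD x0.2)))
    rintro ⟨⟨t, g⟩, a⟩ hx
    rw [Finset.mem_coe, Dl, Finset.mem_filter] at hx
    obtain ⟨-, v, as, hlen, hc, hh, ht, hA⟩ := hx
    simp only at ht hA hh
    subst ht
    refine ⟨(v, g, ⟨as, hlen⟩), ?_, ?_⟩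
    · rw [Finset.mem_coe, Finset.mem_filter]
      exact ⟨Finset.mem_univ _, hc, hA⟩
    · simp only [List.Vector.toList]
      rw [hh]
      rfl
  have h2 : ∑ s, (Finset.univ.filter (fun x => R s x)).card =
      ∑ x, (Finset.univ.filter (fun s => R s x)).card :=
    Finset.sum_card_bipartiteAbove_eq_sum_card_bipartiteBelow R
  have h3 : ∀ x, (Finset.univ.filter (fun s => R s x)).card * (2 * d) ^ n ≤
      Fintype.card (Cell d L → ZMod (2 * d)) := by
    rintro ⟨v, g, as⟩
    by_cases hc : as.toList.IsChain (· ≠ ·)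
    · have h4 := card_AL P as.toList v g hc (by simpa using hL)
      rw [List.Vector.toList_length] at h4
      rw [← Nat.card_eq_fintype_card (α := Cell d L → ZMod (2 * d))]
      refine le_trans (Nat.mul_le_mul_right _ ?_) h4
      rw [Nat.card_eq_fintype_card, Fintype.card_subtype]
      apply Finset.card_le_card
      intro s hs
      rw [Finset.mem_filter] at hs ⊢
      exact ⟨hs.1, hs.2.2⟩
    · have : Finset.univ.filter (fun s => R s (v, g, as)) = ∅ := by
        rw [Finset.filter_eq_empty_iff]
        intro s _ hs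
        exact hc hs.1
      rw [this]
      simp
  have h5 : ∑ s : Cell d L → ZMod (2 * d), (Dl P n s).card * (2 * d) ^ n ≤
      ∑ _s : Cell d L → ZMod (2 * d), Fintype.card P.V * Fintype.card (Gp d L) * d ^ n := by
    calc ∑ s : Cell d L → ZMod (2 * d), (Dl P n s).card * (2 * d) ^ n
        ≤ ∑ s, (Finset.univ.filter (fun x => R s x)).card * (2 * d) ^ n :=
          Finset.sum_le_sum fun s _ => Nat.mul_le_mul_right _ (h1 s)
      _ = (∑ x, (Finset.univ.filter (fun s => R s x)).card) * (2 * d) ^ n := by
          rw [← h2, Finset.sum_mul]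
      _ = ∑ x, (Finset.univ.filter (fun s => R s x)).card * (2 * d) ^ n := by
          rw [Finset.sum_mul]
      _ ≤ ∑ _x : P.V × Gp d L × List.Vector (Fin d) n,
            Fintype.card (Cell d L → ZMod (2 * d)) := Finset.sum_le_sum fun x _ => h3 x
      _ = _ := by
          rw [Finset.sum_const, Finset.sum_const, smul_eq_mul, smul_eq_mul, Finset.card_univ,
            Finset.card_univ, Fintype.card_prod, Fintype.card_prod, card_vector, Fintype.card_fin]
          ring
  obtain ⟨s, -, hs⟩ := Finset.exists_le_of_sum_le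
    (Finset.univ_nonempty (α := Cell d L → ZMod (2 * d))) h5
  exact ⟨s, hs⟩

open Classical in
/-- The graph after deletion. -/
noncomputable def DG {L : ℕ} (s : Cell d L → ZMod (2 * d))
    (D : Finset ((Ty d × Gp d L) × Fin d)) : TG d where
  V := Ty d × Gp d L
  fin := inferInstance
  ty := Prod.fst
  mv := fun a v => if (v, a) ∈ D ∨ (stp s a v, a) ∈ D then none else some (stp s a v)
  sym := by
    intro a v w h
    split_ifs at h with h1
    obtain rfl : stp s a v = w := by simpa using h
    rw [stp_stp, if_neg]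
    intro h2
    exact h1 h2.symm
  labEq := by
    intro a v w h
    split_ifs at h with h1
    exact (FG d L s).labEq a v w h
  side := by
    intro a v w h
    split_ifs at h with h1
    exact (FG d L s).side a v w h

theorem DG_mv {L : ℕ} {s : Cell d L → ZMod (2 * d)}
    {D : Finset ((Ty d × Gp d L) × Fin d)} {a : Fin d} {v w : Ty d × Gp d L}
    (h : (DG s D).mv a v = some w) : (FG d L s).mv a v = some w := by
  classical
  simp only [DG] at h
  split_ifs at h with h1
  exact h

theorem AL_DG {L : ℕ} {P : TG d} {s : Cell d L → ZMod (2 * d)}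
    {D : Finset ((Ty d × Gp d L) × Fin d)} : ∀ (as : List (Fin d)) (v : P.V)
    (w : Ty d × Gp d L), AL P (DG s D) v w as → AL P (FG d L s) v w as
  | [], _, _, h => h
  | a :: as, v, w, h => by
    obtain ⟨h1, v', w', hv, hw, h2⟩ := h
    exact ⟨h1, v', w', hv, DG_mv hw, AL_DG as v' w' h2⟩

theorem Gd_DG {L : ℕ} (P : TG d) (n : ℕ) (hn : n ≠ 0) (s : Cell d L → ZMod (2 * d)) :
    Gd P (DG s (Dl P n s)) := by
  classical
  refine ⟨n, fun v w b H => ?_⟩
  obtain ⟨as, hlen, hc, -, hA⟩ := AW_AL H
  cases as with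
  | nil => exact hn hlen.symm
  | cons a as =>
    have hA' := AL_DG _ _ _ hA
    obtain ⟨h1, v', w', hv, hw, h2⟩ := hA
    have hmem : ((w, a) : (Ty d × Gp d L) × Fin d) ∈ Dl P n s :=
      Finset.mem_filter.mpr ⟨Finset.mem_univ _, v, a :: as, hlen, hc, rfl, h1, hA'⟩
    have hw2 : (if ((w, a) : (Ty d × Gp d L) × Fin d) ∈ Dl P n s ∨ (stp s a w, a) ∈ Dl P n s
        then none else some (stp s a w)) = some w' := hw
    rw [if_pos (Or.inl hmem)] at hw2
    exact absurd hw2 (by simp)

theorem stp_side {L : ℕ} (s : Cell d L → ZMod (2 * d)) (a : Fin d) (v : Ty d × Gp d L) :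
    (stp s a v).1.2.1 = !v.1.2.1 := rfl

theorem DG_isSome {L : ℕ} (s : Cell d L → ZMod (2 * d))
    (D : Finset ((Ty d × Gp d L) × Fin d)) (v : Ty d × Gp d L) (a : Fin d) :
    ((DG s D).mv a v).isSome = true ↔ ¬ ((v, a) ∈ D ∨ (stp s a v, a) ∈ D) := by
  simp only [DG]
  split_ifs with h
  · simp [h]
  · simp [h]

theorem edges_DG {L : ℕ} (s : Cell d L → ZMod (2 * d))
    (D : Finset ((Ty d × Gp d L) × Fin d)) (hD : D.card ≤ Fintype.card (Gp d L)) :
    d * Fintype.card (DG s D).V ≤ 4 * (DG s D).edges.card := by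
  classical
  have hd : 0 < d := Nat.pos_of_ne_zero (NeZero.ne d)
  set R : Finset (Ty d × Gp d L) := Finset.univ.filter (fun v => v.1.2.1 = false) with hR
  have hV : Fintype.card (Ty d × Gp d L) = 2 * R.card := by
    have h1 := Finset.card_filter_add_card_filter_not (s := (Finset.univ : Finset (Ty d × Gp d L)))
      (fun v => v.1.2.1 = false)
    rw [Finset.card_univ] at h1
    have h2 : (Finset.univ.filter (fun v : Ty d × Gp d L => ¬ v.1.2.1 = false)).card = R.card := by
      refine Finset.card_bij' (fun v _ => ((v.1.1, (!v.1.2.1, v.1.2.2)), v.2))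
        (fun v _ => ((v.1.1, (!v.1.2.1, v.1.2.2)), v.2)) ?_ ?_ ?_ ?_
      · intro v hv
        rw [Finset.mem_filter] at hv
        rw [hR, Finset.mem_filter]
        exact ⟨Finset.mem_univ _, by simpa using hv.2⟩
      · intro v hv
        rw [hR, Finset.mem_filter] at hv
        rw [Finset.mem_filter]
        exact ⟨Finset.mem_univ _, by simpa using hv.2⟩
      · intro v hv
        simp
      · intro v hv
        simp
    rw [h2, ← hR] at h1
    omega
  have hcard : Fintype.card (Ty d × Gp d L) =
      (4 * d * d) * (2 * (2 * d)) * Fintype.card (Gp d L) := by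
    rw [Fintype.card_prod, Fintype.card_prod, Fintype.card_prod, ZMod.card, ZMod.card,
      Fintype.card_bool]
  have hRG : 2 * Fintype.card (Gp d L) ≤ R.card := by
    have h3 : 0 < d * d * d := by positivity
    have h4 : Fintype.card (Gp d L) ≤ (d * d * d) * Fintype.card (Gp d L) :=
      Nat.le_mul_of_pos_left _ h3
    have h4' : 2 * R.card = 16 * ((d * d * d) * Fintype.card (Gp d L)) := by
      rw [← hV, hcard]
      ring
    omega
  -- edges
  set EE : Finset ((Ty d × Gp d L) × Fin d) := Finset.univ.filter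
    (fun x => x.1.1.2.1 = false ∧ ¬ (x ∈ D ∨ (stp s x.2 x.1, x.2) ∈ D)) with hEE
  have hEd : (DG s D).edges.card = EE.card := by
    have : (DG s D).edges = EE := by
      unfold TG.edges
      rw [hEE]
      apply Finset.filter_congr
      rintro ⟨v, a⟩ -
      exact and_congr Iff.rfl (DG_isSome s D v a)
    rw [this]
    rfl
  have hE : (R ×ˢ (Finset.univ : Finset (Fin d))).card ≤ EE.card + D.card := by
    have h5 : (R ×ˢ (Finset.univ : Finset (Fin d))) ⊆
        EE ∪ ((R ×ˢ (Finset.univ : Finset (Fin d))) \ EE) := by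
      intro x hx
      rw [Finset.mem_union, Finset.mem_sdiff]
      by_cases h : x ∈ EE
      · exact Or.inl h
      · exact Or.inr ⟨hx, h⟩
    refine (Finset.card_le_card h5).trans ((Finset.card_union_le _ _).trans ?_)
    refine Nat.add_le_add_left ?_ _
    apply Finset.card_le_card_of_injOn
      (fun x => if x ∈ D then x else (stp s x.2 x.1, x.2))
    · rintro ⟨v, a⟩ hx
      rw [Finset.mem_coe, Finset.mem_sdiff, Finset.mem_product, hR, Finset.mem_filter] at hx
      obtain ⟨⟨⟨-, hv⟩, -⟩, hx⟩ := hx
      rw [hEE, Finset.mem_filter] at hx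
      have h6 : (v, a) ∈ D ∨ (stp s a v, a) ∈ D := by
        by_contra h7
        exact hx ⟨Finset.mem_univ _, hv, h7⟩
      simp only
      by_cases h8 : (v, a) ∈ D
      · rw [if_pos h8]
        exact h8
      · rw [if_neg h8]
        exact h6.resolve_left h8
    · rintro ⟨v, a⟩ hx ⟨v', a'⟩ hx' he
      rw [Finset.mem_coe, Finset.mem_sdiff, Finset.mem_product, hR, Finset.mem_filter] at hx hx'
      have hv := hx.1.1.2
      have hv' := hx'.1.1.2
      simp only at he hv hv'
      by_cases h8 : (v, a) ∈ D <;> by_cases h9 : (v', a') ∈ D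
      · simpa [h8, h9] using he
      · rw [if_pos h8, if_neg h9, Prod.mk.injEq] at he
        exfalso
        have := stp_side s a' v'
        rw [← he.1, hv, hv'] at this
        simp at this
      · rw [if_neg h8, if_pos h9, Prod.mk.injEq] at he
        exfalso
        have := stp_side s a v
        rw [he.1, hv, hv'] at this
        simp at this
      · rw [if_neg h8, if_neg h9, Prod.mk.injEq] at he
        obtain ⟨h10, rfl⟩ := he
        have h11 := congrArg (stp s a) h10
        rw [stp_stp, stp_stp] at h11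
        rw [h11]
  rw [Finset.card_product, Finset.card_univ, Fintype.card_fin] at hE
  have hV' : Fintype.card (DG s D).V = Fintype.card (Ty d × Gp d L) := rfl
  rw [hV', hV, hEd]
  have h12 : 2 * Fintype.card (Gp d L) ≤ R.card * d := hRG.trans (Nat.le_mul_of_pos_right _ hd)
  nlinarith

theorem exists_TG (P : TG d) : ∃ Q : TG d, Nonempty Q.V ∧
    d * Fintype.card Q.V ≤ 4 * Q.edges.card ∧ Gd P Q := by
  classical
  set n := Fintype.card P.V + 1 with hn
  obtain ⟨s, hs⟩ := Dl_card (L := 2 * n) P n le_rfl
  have hd : 0 < d := Nat.pos_of_ne_zero (NeZero.ne d)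
  have h1 : (Dl P n s).card ≤ Fintype.card (Gp d (2 * n)) := by
    have h2 : Fintype.card P.V ≤ 2 ^ n :=
      (Nat.lt_two_pow_self (n := Fintype.card P.V)).le.trans
        (Nat.pow_le_pow_right (by norm_num) (by omega))
    rw [mul_pow] at hs
    have h3 : (Dl P n s).card * 2 ^ n * d ^ n ≤
        Fintype.card (Gp d (2 * n)) * 2 ^ n * d ^ n := by
      calc (Dl P n s).card * 2 ^ n * d ^ n = (Dl P n s).card * (2 ^ n * d ^ n) := by ring
        _ ≤ Fintype.card P.V * Fintype.card (Gp d (2 * n)) * d ^ n := hs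
        _ ≤ 2 ^ n * Fintype.card (Gp d (2 * n)) * d ^ n := by gcongr
        _ = _ := by ring
    have h4 : 0 < 2 ^ n * d ^ n := by positivity
    rw [mul_assoc, mul_assoc] at h3
    exact Nat.le_of_mul_le_mul_right h3 h4
  refine ⟨DG s (Dl P n s), ⟨((0, (false, 0)), 1)⟩, edges_DG s _ h1, Gd_DG P n (by omega) s⟩

/-- The sequence of graphs. -/
theorem exists_seq_TG (d : ℕ) [NeZero d] : ∃ Γ : ℕ → TG d, (∀ n, Nonempty (Γ n).V ∧
    d * Fintype.card (Γ n).V ≤ 4 * (Γ n).edges.card) ∧ ∀ m n, m < n → Gd (Γ m) (Γ n) := by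
  classical
  apply exists_seq_of_forall_finset_exists
    (fun Q : TG d => Nonempty Q.V ∧ d * Fintype.card Q.V ≤ 4 * Q.edges.card)
    (fun P Q => Gd P Q)
  intro s _
  obtain ⟨Q, h1, h2, h3⟩ := exists_TG
    (TG.sig (fun i : Fin s.card => ((s.equivFin.symm i : s) : TG d)))
  refine ⟨Q, ⟨h1, h2⟩, fun x hx => ?_⟩
  have h4 := Gd_sig h3 (s.equivFin ⟨x, hx⟩)
  simpa using h4

end

end MP27ef93
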