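import Pool.Agent.Lib.MP_27ef93_an.Model

/-!
A separable subspace of the Calkin algebra whose inclusion has no bounded linear lifting.
-/

namespace MP27ef93

open Finset

variable {H : Type*} [NormedAddCommGroup H] [InnerProductSpace ℂ H]

/-- The lower bound for the sum of the matrix coefficients along the edges. -/
theorem lower_bound (U : H ≃ₗᵢ[ℂ] H2) {d : ℕ} [NeZero d] {Γ : ℕ → TG d}
    {A B : Fin d × ZMod (4 * d * d) → (H →L[ℂ] H)} {pos : ∀ j, (Γ j).V → ℕ}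
    (h2 : ∀ j v a, (v, a) ∈ (Γ j).edges →
      cH U (A (a, lab d ((Γ j).ty v) a)) (pos j v) (pos j ((Γ j).nb a v)) = 1)
    (h3 : ∀ N, ∀ᶠ j in Filter.atTop, ∀ v, N ≤ pos j v)
    (hAB : ∀ f, IsCompactOperator (B f - A f)) :
    ∀ᶠ j in Filter.atTop, ((Γ j).edges.card : ℝ) / 2 ≤
      ‖∑ x ∈ (Γ j).edges, cH U (B (x.2, lab d ((Γ j).ty x.1) x.2)) (pos j x.1)
        (pos j ((Γ j).nb x.2 x.1))‖ := by
  classical
  have : NeZero (4 * d * d) := ⟨by have := NeZero.ne d; positivity⟩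
  have hN : ∀ f, ∃ N, ∀ n ≥ N, ∀ m, ‖cH U (B f - A f) n m‖ ≤ 1 / 2 :=
    fun f => cH_small U (hAB f) (by norm_num)
  choose N hN using hN
  filter_upwards [h3 (univ.sup N)] with j hj
  have hre : ∀ x ∈ (Γ j).edges, (1 : ℝ) / 2 ≤
      (cH U (B (x.2, lab d ((Γ j).ty x.1) x.2)) (pos j x.1) (pos j ((Γ j).nb x.2 x.1))).re := by
    rintro ⟨v, a⟩ hx
    have h4 := h2 j v a hx
    have h5 := hN (a, lab d ((Γ j).ty v) a) (pos j v)
      ((Finset.le_sup (f := N) (Finset.mem_univ (a, lab d ((Γ j).ty v) a))).trans (hj v))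
      (pos j ((Γ j).nb a v))
    rw [cH_sub, h4] at h5
    have h6 := (Complex.abs_re_le_norm _).trans h5
    rw [Complex.sub_re, Complex.one_re, abs_le] at h6
    simp only
    linarith [h6.1]
  calc ((Γ j).edges.card : ℝ) / 2 = ∑ x ∈ (Γ j).edges, (1 : ℝ) / 2 := by
        rw [Finset.sum_const, nsmul_eq_mul]
        ring
    _ ≤ ∑ x ∈ (Γ j).edges,
        (cH U (B (x.2, lab d ((Γ j).ty x.1) x.2)) (pos j x.1) (pos j ((Γ j).nb x.2 x.1))).re :=
        Finset.sum_le_sum hre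
    _ = (∑ x ∈ (Γ j).edges,
        cH U (B (x.2, lab d ((Γ j).ty x.1) x.2)) (pos j x.1) (pos j ((Γ j).nb x.2 x.1))).re :=
        (Complex.re_sum _ _).symm
    _ ≤ _ := (Complex.re_le_norm _)

/-- The norm of a lifting on a space containing the data of a sequence of graphs. -/
theorem lift_bound [CompleteSpace H] (U : H ≃ₗᵢ[ℂ] H2) {d : ℕ} [NeZero d] {Γ : ℕ → TG d}
    {A : Fin d × ZMod (4 * d * d) → (H →L[ℂ] H)} {pos : ∀ j, (Γ j).V → ℕ}
    {r : ∀ j, (Γ j).V → Fin d → Calkin H}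
    (h1 : ∀ j, Nonempty (Γ j).V ∧ d * Fintype.card (Γ j).V ≤ 4 * (Γ j).edges.card)
    (h2 : ∀ j v a, (v, a) ∈ (Γ j).edges →
      cH U (A (a, lab d ((Γ j).ty v) a)) (pos j v) (pos j ((Γ j).nb a v)) = 1)
    (h3 : ∀ N, ∀ᶠ j in Filter.atTop, ∀ v, N ≤ pos j v)
    (h5 : ∀ j, ∀ u, ((Γ j).ty u).2.1 = false → ∀ θ : Fin d → ℂ, (∀ a, θ a = 1 ∨ θ a = -1) →
      ‖∑ a ∈ univ.filter (fun a => ((Γ j).mv a u).isSome), θ a • r j u a‖ ≤ 1)
    (h6 : ∀ j, ∀ w, ((Γ j).ty w).2.1 = true → ∀ θ : Fin d → ℂ, (∀ a, θ a = 1 ∨ θ a = -1) →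
      ‖∑ a ∈ univ.filter (fun a => ((Γ j).mv a w).isSome),
        θ a • (qm (A (a, lab d ((Γ j).ty w) a)) - r j ((Γ j).nb a w) a)‖ ≤ 1)
    {Y : Type*} [NormedAddCommGroup Y] [NormedSpace ℂ Y] (i : Y →ₗᵢ[ℂ] Calkin H)
    (hAX : ∀ f, ∃ y, i y = qm (A f)) (hrX : ∀ j v a, ∃ y, i y = r j v a)
    (u : Y →L[ℂ] (H →L[ℂ] H)) (hu : ∀ y, qm (u y) = i y) :
    (d : ℝ) ≤ (16 * ‖u‖) ^ 2 := by
  classical
  choose A' hA' using hAX
  choose r' hr' using hrX
  -- the lower bound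
  have hlow := lower_bound U (B := fun f => u (A' f)) h2 h3 (by
    intro f
    apply compact_of_qm
    rw [map_sub, hu, hA', sub_self])
  obtain ⟨j, hj⟩ := hlow.exists
  -- the upper bound
  have hkey := key_norm (Γ j) (Y := Y) (H := H) A' (r' j) (by
      intro v hv θ hθ
      have := h5 j v hv θ hθ
      rw [← i.norm_map, map_sum]
      simpa [hr'] using this) (by
      intro w hw θ hθ
      have := h6 j w hw θ hθ
      rw [← i.norm_map, map_sum]
      simpa [hr', hA'] using this) u (fun v => bH U (pos j v)) (fun v => bH U (pos j v))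
  have hsum : ∑ x ∈ (Γ j).edges, inner ℂ (bH U (pos j x.1))
      (u (A' (x.2, lab d ((Γ j).ty x.1) x.2)) (bH U (pos j ((Γ j).nb x.2 x.1)))) =
      ∑ x ∈ (Γ j).edges,
        cH U (u (A' (x.2, lab d ((Γ j).ty x.1) x.2))) (pos j x.1)
          (pos j ((Γ j).nb x.2 x.1)) := by
    apply Finset.sum_congr rfl
    intro x _
    rfl
  rw [hsum] at hkey
  have hbv : ∑ v : (Γ j).V, ‖bH U (pos j v)‖ ^ 2 = (Fintype.card (Γ j).V : ℝ) := by
    simp [norm_bH]
  rw [hbv, mul_assoc (√(d : ℝ)), Real.mul_self_sqrt (Nat.cast_nonneg _)] at hkey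
  obtain ⟨hne, hcard⟩ := h1 j
  have hV : (0 : ℝ) < Fintype.card (Γ j).V := by
    exact_mod_cast Fintype.card_pos
  have hcard' : (d : ℝ) * Fintype.card (Γ j).V ≤ 4 * (Γ j).edges.card := by
    exact_mod_cast hcard
  have hs : √(d : ℝ) * √(d : ℝ) = (d : ℝ) :=
    Real.mul_self_sqrt (Nat.cast_nonneg _)
  have hs0 : 0 < √(d : ℝ) := by
    apply Real.sqrt_pos.mpr
    have := NeZero.pos d
    exact_mod_cast this
  have h7 := hj.trans hkey
  have h8 : √(d : ℝ) * (√(d : ℝ) * Fintype.card (Γ j).V) ≤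
      16 * ‖u‖ * (√(d : ℝ) * (Fintype.card (Γ j).V : ℝ)) := by
    rw [← mul_assoc, hs]
    linarith
  have h9 : √(d : ℝ) ≤ 16 * ‖u‖ :=
    le_of_mul_le_mul_right h8 (by positivity)
  rw [← hs, ← sq]
  gcongr

/-- There is a separable closed subspace of the Calkin algebra whose inclusion has no bounded
linear lifting. -/
theorem no_lifting [CompleteSpace H] (U : H ≃ₗᵢ[ℂ] H2) :
    ∃ X : Submodule ℂ (Calkin H), IsClosed (X : Set (Calkin H)) ∧
    TopologicalSpace.SeparableSpace X ∧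
    ¬ ∃ u : X →L[ℂ] (H →L[ℂ] H), ∀ x : X, qm (u x) = x := by
  classical
  have hdata := fun d : ℕ => calkin_data U (d + 1)
  choose Γ A pos r h1 h2 h3 _ h5 h6 using hdata
  set S : Set (Calkin H) := ⋃ d : ℕ, (Set.range (fun f => qm (A d f)) ∪
    ⋃ j : ℕ, Set.range (fun x : (Γ d j).V × Fin (d + 1) => r d j x.1 x.2)) with hS
  have hcount : S.Countable := by
    apply Set.countable_iUnion
    intro d
    have : NeZero (4 * (d + 1) * (d + 1)) := ⟨by positivity⟩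
    refine Set.Countable.union (Set.countable_range _) ?_
    exact Set.countable_iUnion fun j => Set.countable_range _
  have hSX : ∀ y ∈ S, y ∈ (Submodule.span ℂ S).topologicalClosure := fun y hy =>
    Submodule.le_topologicalClosure _ (Submodule.subset_span hy)
  refine ⟨(Submodule.span ℂ S).topologicalClosure, Submodule.isClosed_topologicalClosure _, ?_, ?_⟩
  · have : TopologicalSpace.IsSeparable
        ((Submodule.span ℂ S).topologicalClosure : Set (Calkin H)) := by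
      rw [Submodule.topologicalClosure_coe]
      exact (hcount.isSeparable.span (R := ℂ)).closure
    exact this.separableSpace
  · rintro ⟨u, hu⟩
    obtain ⟨d, hd⟩ := exists_nat_gt ((16 * ‖u‖) ^ 2)
    have hAX : ∀ f, qm (A d f) ∈ (Submodule.span ℂ S).topologicalClosure := fun f =>
      hSX _ (Set.mem_iUnion.mpr ⟨d, Or.inl ⟨f, rfl⟩⟩)
    have hrX : ∀ j v a, r d j v a ∈ (Submodule.span ℂ S).topologicalClosure := fun j v a =>
      hSX _ (Set.mem_iUnion.mpr ⟨d, Or.inr (Set.mem_iUnion.mpr ⟨j, ⟨(v, a), rfl⟩⟩)⟩)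
    have h := lift_bound U (h1 d) (h2 d) (h3 d) (h5 d) (h6 d)
      (Y := (Submodule.span ℂ S).topologicalClosure)
      (Submodule.span ℂ S).topologicalClosure.subtypeₗᵢ
      (fun f => ⟨⟨_, hAX f⟩, rfl⟩) (fun j v a => ⟨⟨_, hrX j v a⟩, rfl⟩) u hu
    push_cast at h
    linarith

/-- The same statement in terms of the quotient of Mathlib. -/
theorem no_lifting' (H : Type*) [NormedAddCommGroup H] [InnerProductSpace ℂ H] [CompleteSpace H]
    [TopologicalSpace.SeparableSpace H] (hH : ¬ FiniteDimensional ℂ H) :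
    ∃ X : Submodule ℂ ((H →L[ℂ] H) ⧸ compactOperator (RingHom.id ℂ) H H),
      IsClosed (X : Set ((H →L[ℂ] H) ⧸ compactOperator (RingHom.id ℂ) H H)) ∧
      TopologicalSpace.SeparableSpace X ∧
      ¬ ∃ u : X →L[ℂ] (H →L[ℂ] H), ∀ x : X,
        (Submodule.Quotient.mk (u x) : (H →L[ℂ] H) ⧸ compactOperator (RingHom.id ℂ) H H) = x := by
  obtain ⟨U⟩ := exists_U H hH
  exact no_lifting U

end MP27ef93
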