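import Pool.Agent.Lib.MP_27ef93_an.Abs
import Pool.Agent.Lib.MP_27ef93_an.Lift

/-!
The maximal operator space structure of the bounded operators is not locally reflexive.
-/

namespace MP27ef93

open Finset Filter Topology
open scoped ENNReal

section Mat

variable {d : ℕ} (P : TG d) {E : Type*} [AddCommGroup E] [Module ℂ E]

/-- The matrix over `E` of the edges of the graph. -/
noncomputable def eMat (a : Fin d × ZMod (4 * d * d) → E) (v w : P.V) : E :=
  open Classical in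
  ∑ b ∈ univ.filter (fun b => (P.ty v).2.1 = false ∧ P.mv b v = some w), a (b, lab d (P.ty v) b)

theorem eMat_sum {K : Type*} [NormedAddCommGroup K] [InnerProductSpace ℂ K]
    (a : Fin d × ZMod (4 * d * d) → E) (g : E →ₗ[ℂ] (K →L[ℂ] K)) (ζ η : P.V → K) :
    ∑ v, ∑ w, inner ℂ (ζ v) (g (eMat P a v w) (η w)) =
      ∑ x ∈ P.edges, inner ℂ (ζ x.1) (g (a (x.2, lab d (P.ty x.1) x.2)) (η (P.nb x.2 x.1))) := by
  classical
  have h1 : ∀ v w, inner ℂ (ζ v) (g (eMat P a v w) (η w)) =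
      ∑ b, if (P.ty v).2.1 = false ∧ P.mv b v = some w then
        inner ℂ (ζ v) (g (a (b, lab d (P.ty v) b)) (η w)) else 0 := by
    intro v w
    rw [← Finset.sum_filter, eMat, map_sum, _root_.sum_apply, inner_sum]
  simp only [h1]
  have h2 : ∑ x ∈ P.edges, inner ℂ (ζ x.1) (g (a (x.2, lab d (P.ty x.1) x.2)) (η (P.nb x.2 x.1))) =
      ∑ v, ∑ b, if (P.ty v).2.1 = false ∧ (P.mv b v).isSome then
        inner ℂ (ζ v) (g (a (b, lab d (P.ty v) b)) (η (P.nb b v))) else 0 := by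
    rw [TG.edges, Finset.sum_filter, Fintype.sum_prod_type]
  rw [h2]
  apply Finset.sum_congr rfl
  intro v _
  rw [Finset.sum_comm]
  apply Finset.sum_congr rfl
  intro b _
  by_cases hs : (P.mv b v).isSome
  · have hmv := P.mv_nb hs
    by_cases hr : (P.ty v).2.1 = false
    · rw [if_pos ⟨hr, hs⟩, Finset.sum_eq_single (P.nb b v)]
      · rw [if_pos ⟨hr, hmv⟩]
      · intro w _ hw
        rw [if_neg]
        rintro ⟨_, h3⟩
        rw [hmv] at h3
        exact hw (Option.some.inj h3).symm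
      · intro h3
        exact absurd (Finset.mem_univ _) h3
    · rw [if_neg (fun h => hr h.1)]
      apply Finset.sum_eq_zero
      intro w _
      rw [if_neg (fun h => hr h.1)]
  · rw [if_neg (fun h => hs h.2)]
    apply Finset.sum_eq_zero
    intro w _
    rw [if_neg]
    rintro ⟨_, h3⟩
    rw [h3] at hs
    exact hs rfl

end Mat

section CB

variable {H K : Type} [NormedAddCommGroup H] [InnerProductSpace ℂ H] [CompleteSpace H]
  [NormedAddCommGroup K] [InnerProductSpace ℂ K]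

/-- The use of the completely bounded norm. -/
theorem cb_use {E : Type*} [AddCommGroup E] [Module ℂ E] {i : E →ₗ[ℂ] (K →L[ℂ] K)}
    {v : E →ₗ[ℂ] (H →L[ℂ] H)} {C : ℝ} (hv : CbLe (indN i) (maxN (H →L[ℂ] H)) v C)
    {ι : Type*} [Fintype ι] (x : ι → ι → E) {B : ℝ} (hB : 0 ≤ B)
    (hx : ∀ ζ η : ι → K, ∑ p, ‖ζ p‖ ^ 2 ≤ 1 → ∑ p, ‖η p‖ ^ 2 ≤ 1 →
      ‖∑ p, ∑ q, inner ℂ (ζ p) (i (x p q) (η q))‖ ≤ B)
    (ζ η : ι → H) (hζ : ∑ p, ‖ζ p‖ ^ 2 ≤ 1) (hη : ∑ p, ‖η p‖ ^ 2 ≤ 1) :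
    ‖∑ p, ∑ q, inner ℂ (ζ p) (v (x p q) (η q))‖ ≤ |C| * B := by
  classical
  let e := Fintype.equivFin ι
  let X : Matrix (Fin (Fintype.card ι)) (Fin (Fintype.card ι)) E :=
    fun p q => x (e.symm p) (e.symm q)
  have h1 : opN (X.map i) ≤ ENNReal.ofReal B := by
    apply opN_le
    intro a b ha hb
    have h2 := hx (fun p => a (e p)) (fun p => b (e p))
      (by rw [Equiv.sum_comp e (fun p => ‖a p‖ ^ 2)]; exact ha)
      (by rw [Equiv.sum_comp e (fun p => ‖b p‖ ^ 2)]; exact hb)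
    have h3 : ∑ p, ∑ q, inner ℂ (a (e p)) (i (x p q) (b (e q))) =
        ∑ p, ∑ q, inner ℂ (a p) (X.map i p q (b q)) := by
      rw [← Equiv.sum_comp e]
      apply Finset.sum_congr rfl
      intro p _
      rw [← Equiv.sum_comp e]
      apply Finset.sum_congr rfl
      intro q _
      have h10 : X (e p) (e q) = x p q := by
        change x (e.symm (e p)) (e.symm (e q)) = x p q
        rw [Equiv.symm_apply_apply, Equiv.symm_apply_apply]
      change _ = inner ℂ (a (e p)) (i (X (e p) (e q)) (b (e q)))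
      rw [h10]
    rwa [h3] at h2
  have h4 := hv (Fintype.card ι) X
  have h5 : opN (X.map v) ≤ ENNReal.ofReal (|C| * B) := by
    have h6 : opN (X.map v) ≤ maxN (H →L[ℂ] H) (Fintype.card ι) (X.map v) := by
      unfold maxN contrN
      let w : (H →L[ℂ] H) →ₗ[ℂ] (H →L[ℂ] H) :=
        { toFun := fun T => T
          map_add' := fun _ _ => rfl
          map_smul' := fun _ _ => rfl }
      exact le_iSup_of_le H (le_iSup_of_le inferInstance (le_iSup_of_le inferInstance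
        (le_iSup_of_le inferInstance (le_iSup_of_le w (le_iSup_of_le (fun _ => le_rfl) le_rfl)))))
    refine h6.trans (h4.trans ?_)
    rw [ENNReal.ofReal_mul (abs_nonneg C)]
    gcongr
    · exact le_abs_self C
    · exact h1
  have h7 := (le_opN (X.map v) (fun p => ζ (e.symm p)) (fun p => η (e.symm p))
    (by rw [Equiv.sum_comp e.symm (fun p => ‖ζ p‖ ^ 2)]; exact hζ)
    (by rw [Equiv.sum_comp e.symm (fun p => ‖η p‖ ^ 2)]; exact hη)).trans h5
  have h8 := norm_le_of_enorm (by positivity) h7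
  have h9 : ∑ p, ∑ q, inner ℂ (ζ p) (v (x p q) (η q)) =
      ∑ p, ∑ q, inner ℂ (ζ (e.symm p)) (X.map v p q (η (e.symm q))) := by
    rw [← Equiv.sum_comp e.symm]
    apply Finset.sum_congr rfl
    intro p _
    rw [← Equiv.sum_comp e.symm]
    apply Finset.sum_congr rfl
    intro q _
    rfl
  rw [h9]
  exact h8

end CB

section Psi

variable {H : Type} [NormedAddCommGroup H] [InnerProductSpace ℂ H]

/-- The normalized sum of the matrix coefficients along the edges with the label `f`. -/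
noncomputable def psi (U : H ≃ₗᵢ[ℂ] H2) {d : ℕ} (Γ : ℕ → TG d) (pos : ∀ j, (Γ j).V → ℕ)
    (f : Fin d × ZMod (4 * d * d)) (T : H →L[ℂ] H) (j : ℕ) : ℂ :=
  open Classical in
  ((Fintype.card (Γ j).V : ℂ))⁻¹ *
    ∑ x ∈ (Γ j).edges.filter (fun x => (x.2, lab d ((Γ j).ty x.1) x.2) = f),
      cH U T (pos j x.1) (pos j ((Γ j).nb x.2 x.1))

theorem norm_psi_le (U : H ≃ₗᵢ[ℂ] H2) {d : ℕ} (Γ : ℕ → TG d) (pos : ∀ j, (Γ j).V → ℕ)
    (f : Fin d × ZMod (4 * d * d)) (T : H →L[ℂ] H) (j : ℕ) :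
    ‖psi U Γ pos f T j‖ ≤ d * ‖T‖ := by
  classical
  unfold psi
  rw [norm_mul, norm_inv, Complex.norm_natCast]
  have h1 : ‖∑ x ∈ (Γ j).edges.filter (fun x => (x.2, lab d ((Γ j).ty x.1) x.2) = f),
      cH U T (pos j x.1) (pos j ((Γ j).nb x.2 x.1))‖ ≤
      (Fintype.card (Γ j).V : ℝ) * (d * ‖T‖) := by
    refine (norm_sum_le _ _).trans ?_
    refine (Finset.sum_le_card_nsmul _ _ ‖T‖ fun x _ => norm_cH_le U T _ _).trans ?_
    rw [nsmul_eq_mul, ← mul_assoc]
    gcongr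
    have h2 : ((Γ j).edges.filter (fun x => (x.2, lab d ((Γ j).ty x.1) x.2) = f)).card ≤
        Fintype.card ((Γ j).V × Fin d) := Finset.card_le_univ _
    rw [Fintype.card_prod, Fintype.card_fin] at h2
    exact_mod_cast h2
  by_cases hc : (Fintype.card (Γ j).V : ℝ) = 0
  · rw [hc]
    simp only [inv_zero, zero_mul]
    positivity
  · have hpos : (0 : ℝ) < Fintype.card (Γ j).V := lt_of_le_of_ne (Nat.cast_nonneg _) (Ne.symm hc)
    rw [inv_mul_le_iff₀ hpos]
    exact h1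

theorem exists_Psi (U : H ≃ₗᵢ[ℂ] H2) {d : ℕ} (Γ : ℕ → TG d) (pos : ∀ j, (Γ j).V → ℕ)
    (f : Fin d × ZMod (4 * d * d)) :
    ∃ Ψ : StrongDual ℂ (H →L[ℂ] H), ∀ T, Ψ T = ulim (psi U Γ pos f T) := by
  classical
  let F : (H →L[ℂ] H) →ₗ[ℂ] ℂ :=
    { toFun := fun T => ulim (psi U Γ pos f T)
      map_add' := by
        intro T S
        rw [← ulim_add (norm_psi_le U Γ pos f T) (norm_psi_le U Γ pos f S)]
        congr 1
        funext j
        unfold psi
        simp only [cH_add, Finset.sum_add_distrib, mul_add]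
      map_smul' := by
        intro c T
        rw [RingHom.id_apply, smul_eq_mul, ← ulim_mul_left c (norm_psi_le U Γ pos f T)]
        congr 1
        funext j
        unfold psi
        simp only [cH_smul, ← Finset.mul_sum]
        ring }
  exact ⟨F.mkContinuous d (fun T => norm_ulim_le (norm_psi_le U Γ pos f T)), fun T => rfl⟩

theorem sum_psi (U : H ≃ₗᵢ[ℂ] H2) {d : ℕ} [NeZero (4 * d * d)] (Γ : ℕ → TG d)
    (pos : ∀ j, (Γ j).V → ℕ) (B : Fin d × ZMod (4 * d * d) → (H →L[ℂ] H)) (j : ℕ) :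
    ∑ f, psi U Γ pos f (B f) j = ((Fintype.card (Γ j).V : ℂ))⁻¹ *
      ∑ x ∈ (Γ j).edges, cH U (B (x.2, lab d ((Γ j).ty x.1) x.2)) (pos j x.1)
        (pos j ((Γ j).nb x.2 x.1)) := by
  classical
  unfold psi
  rw [← Finset.mul_sum]
  congr 1
  rw [← Finset.sum_fiberwise (Γ j).edges (fun x => (x.2, lab d ((Γ j).ty x.1) x.2))]
  apply Finset.sum_congr rfl
  intro f _
  apply Finset.sum_congr rfl
  intro x hx
  rw [(Finset.mem_filter.mp hx).2]

end Psi

/-- The maximal operator space structure of `B(H)` is not locally reflexive. -/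
theorem not_locRefl (H : Type) [NormedAddCommGroup H] [InnerProductSpace ℂ H] [CompleteSpace H]
    (U : H ≃ₗᵢ[ℂ] H2) (C : ℝ) : ¬ LocallyReflexive (maxN (H →L[ℂ] H)) C := by
  classical
  intro hLR
  obtain ⟨s, hs⟩ := exists_nat_gt (8 * |C|)
  have hs0 : (0 : ℝ) < s := lt_of_le_of_lt (by positivity) hs
  have hs1 : 0 < s := by exact_mod_cast hs0
  obtain ⟨d, hd⟩ : ∃ d : ℕ, d = s * s := ⟨_, rfl⟩
  have hd0 : 0 < d := by rw [hd]; positivity
  have : NeZero d := ⟨hd0.ne'⟩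
  have : NeZero (4 * d * d) := ⟨by positivity⟩
  have hsd : √(d : ℝ) = s := by
    rw [hd]
    push_cast
    exact Real.sqrt_mul_self hs0.le
  obtain ⟨Γ, A, pos, r, h1, h2, h3, h4, h5, h6⟩ := calkin_data U d
  obtain ⟨Q, hQ1, hQ2, hQ3⟩ := exists_tail U
  obtain ⟨J, hJ1, hJ2⟩ := exists_J (Calkin H)
  choose Ψ hΨ using exists_Psi U Γ pos
  -- the compressions
  let P : ℕ → (H →L[ℂ] H) →L[ℂ] (H →L[ℂ] H) := fun m => ContinuousLinearMap.compL ℂ H H H (Q m)
  have hP : ∀ m, ‖P m‖ ≤ 1 := by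
    intro m
    apply ContinuousLinearMap.opNorm_le_bound _ zero_le_one
    intro T
    refine (ContinuousLinearMap.opNorm_comp_le (Q m) T).trans ?_
    gcongr
    exact hQ1 m
  let E : Submodule ℂ (Calkin H) := Submodule.span ℂ (Set.range fun f => qm (A f))
  have hE : FiniteDimensional ℂ E := FiniteDimensional.span_of_finite ℂ (Set.finite_range _)
  have hAE : ∀ f, qm (A f) ∈ E := fun f => Submodule.subset_span ⟨f, rfl⟩
  obtain ⟨l, hl1, hl2, hl3⟩ := abs_approx hP (q := qm (H := H))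
    (Submodule.mkQ_surjective _) (by
      intro T ε hε
      obtain ⟨T', hT', hT'2⟩ := Submodule.Quotient.norm_mk_lt
        (S := compactOperator (RingHom.id ℂ) H H) (qm T) hε
      exact ⟨T', hT', hT'2.le⟩) (by
      intro T hT
      exact hQ3 T (compact_of_qm hT)) hJ2 hLR E
  -- the limit
  have hlim : Tendsto (fun v : E →ₗ[ℂ] (H →L[ℂ] H) => ∑ f, Ψ f (v ⟨qm (A f), hAE f⟩)) l
      (𝓝 (∑ f, Ψ f (A f))) := by
    refine tendsto_finsetSum _ fun f _ => ?_
    have h7 := hl3 ⟨qm (A f), hAE f⟩ (A f) rfl (Ψ f)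
    have h8 : ulim (fun m => Ψ f (P m (A f))) = Ψ f (A f) := by
      apply ulim_eq
      refine tendsto_const_nhds.congr fun m => ?_
      rw [hΨ, hΨ]
      apply ulim_eq
      refine (tendsto_ulim (norm_psi_le U Γ pos f (P m (A f)))).congr' ?_
      have h9 : ∀ᶠ j in atTop, psi U Γ pos f (P m (A f)) j = psi U Γ pos f (A f) j := by
        filter_upwards [h3 m] with j hj
        unfold psi
        congr 1
        apply Finset.sum_congr rfl
        intro x _
        exact hQ2 m (A f) _ _ (hj x.1)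
      exact h9.filter_mono Nat.hyperfilter_le_atTop
    rwa [h8] at h7
  -- the lower bound
  have hlow : (d : ℝ) / 4 ≤ ‖∑ f, Ψ f (A f)‖ := by
    have h10 : ∑ f, Ψ f (A f) = ulim (fun j => ∑ f, psi U Γ pos f (A f) j) := by
      rw [ulim_sum _ (fun f => norm_psi_le U Γ pos f (A f))]
      apply Finset.sum_congr rfl
      intro f _
      exact hΨ f (A f)
    have h11 : Tendsto (fun j => ∑ f, psi U Γ pos f (A f) j) (hyperfilter ℕ : Filter ℕ)
        (𝓝 (∑ f, Ψ f (A f))) := by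
      refine tendsto_finsetSum _ fun f _ => ?_
      rw [hΨ]
      exact tendsto_ulim (norm_psi_le U Γ pos f (A f))
    have h12 := (Complex.continuous_re.tendsto _).comp h11
    refine le_trans ?_ (Complex.re_le_norm _)
    refine ge_of_tendsto h12 (Eventually.of_forall fun j => ?_)
    change (d : ℝ) / 4 ≤ (∑ f, psi U Γ pos f (A f) j).re
    rw [sum_psi]
    have h13 : ∑ x ∈ (Γ j).edges, cH U (A (x.2, lab d ((Γ j).ty x.1) x.2)) (pos j x.1)
        (pos j ((Γ j).nb x.2 x.1)) = ((Γ j).edges.card : ℂ) := by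
      rw [Finset.sum_congr rfl (fun x hx => h2 j x.1 x.2 hx)]
      simp
    rw [h13]
    obtain ⟨hne, hcard⟩ := h1 j
    have hV : (0 : ℝ) < Fintype.card (Γ j).V := by
      exact_mod_cast Fintype.card_pos
    have hcard' : (d : ℝ) * Fintype.card (Γ j).V ≤ 4 * (Γ j).edges.card := by
      exact_mod_cast hcard
    have h14 : (((Fintype.card (Γ j).V : ℂ))⁻¹ * ((Γ j).edges.card : ℂ)).re =
        ((Fintype.card (Γ j).V : ℝ))⁻¹ * (Γ j).edges.card := by
      rw [← Complex.ofReal_natCast, ← Complex.ofReal_natCast, ← Complex.ofReal_inv,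
        ← Complex.ofReal_mul, Complex.ofReal_re]
    rw [h14, le_inv_mul_iff₀ hV]
    linarith
  -- the contraction given by all representations
  let φ : Calkin H →L[ℂ] (BigK (Calkin H) →L[ℂ] BigK (Calkin H)) :=
    J.mkContinuous 1 (fun y => by rw [one_mul]; exact hJ1 y)
  have hφ : ‖φ‖ ≤ 1 := LinearMap.mkContinuous_norm_le _ zero_le_one _
  -- the upper bound
  have hup : ∀ v : E →ₗ[ℂ] (H →L[ℂ] H), CbLe (indN (J ∘ₗ E.subtype)) (maxN (H →L[ℂ] H)) v C →
      ‖∑ f, Ψ f (v ⟨qm (A f), hAE f⟩)‖ ≤ |C| * (2 * √(d : ℝ)) := by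
    intro v hv
    have h10 : ∑ f, Ψ f (v ⟨qm (A f), hAE f⟩) =
        ulim (fun j => ∑ f, psi U Γ pos f (v ⟨qm (A f), hAE f⟩) j) := by
      rw [ulim_sum _ (fun f => norm_psi_le U Γ pos f (v ⟨qm (A f), hAE f⟩))]
      apply Finset.sum_congr rfl
      intro f _
      exact hΨ f _
    rw [h10]
    apply norm_ulim_le
    intro j
    rw [sum_psi U Γ pos (fun f => v ⟨qm (A f), hAE f⟩) j]
    obtain ⟨hne, hcard⟩ := h1 j
    have hV : (0 : ℝ) < Fintype.card (Γ j).V := by
      exact_mod_cast Fintype.card_pos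
    set c : ℂ := (((√(Fintype.card (Γ j).V : ℝ))⁻¹ : ℝ) : ℂ) with hc
    have hcc : starRingEnd ℂ c * c = ((Fintype.card (Γ j).V : ℂ))⁻¹ := by
      rw [hc, Complex.conj_ofReal, ← Complex.ofReal_mul, ← mul_inv,
        Real.mul_self_sqrt (Nat.cast_nonneg _)]
      push_cast
      rfl
    have hnc : ‖c‖ ^ 2 = ((Fintype.card (Γ j).V : ℝ))⁻¹ := by
      rw [hc, Complex.norm_real, Real.norm_eq_abs, abs_of_pos (by positivity), inv_pow,
        Real.sq_sqrt (Nat.cast_nonneg _)]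
    have hunit : ∑ w : (Γ j).V, ‖c • bH U (pos j w)‖ ^ 2 ≤ 1 := by
      have h15 : ∀ w : (Γ j).V, ‖c • bH U (pos j w)‖ ^ 2 =
          ((Fintype.card (Γ j).V : ℝ))⁻¹ := by
        intro w
        rw [norm_smul, norm_bH, mul_one, hnc]
      simp only [h15, Finset.sum_const, Finset.card_univ, nsmul_eq_mul]
      rw [mul_inv_cancel₀ hV.ne']
    have h16 := cb_use hv (eMat (Γ j) (fun f => (⟨qm (A f), hAE f⟩ : E)))
      (B := 2 * √(d : ℝ)) (by positivity) (by
        intro ζ η hζ hη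
        rw [eMat_sum (Γ j) (fun f => (⟨qm (A f), hAE f⟩ : E)) (J ∘ₗ E.subtype) ζ η]
        have h17 := key (Γ j) (fun f => qm (A f)) (r j) (h5 j) (h6 j) φ hφ ζ η
        refine h17.trans ?_
        have h18 : √(∑ v, ‖ζ v‖ ^ 2) ≤ 1 := by
          rw [← Real.sqrt_one]
          exact Real.sqrt_le_sqrt hζ
        have h19 : √(∑ v, ‖η v‖ ^ 2) ≤ 1 := by
          rw [← Real.sqrt_one]
          exact Real.sqrt_le_sqrt hη
        calc 2 * (√(d : ℝ) * √(∑ v, ‖ζ v‖ ^ 2) * √(∑ v, ‖η v‖ ^ 2))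
            ≤ 2 * (√(d : ℝ) * 1 * 1) := by gcongr
          _ = 2 * √(d : ℝ) := by ring)
      (fun w => c • bH U (pos j w)) (fun w => c • bH U (pos j w)) hunit hunit
    rw [eMat_sum (Γ j) (fun f => (⟨qm (A f), hAE f⟩ : E)) v] at h16
    have h20 : ((Fintype.card (Γ j).V : ℂ))⁻¹ * ∑ x ∈ (Γ j).edges,
        cH U (v ⟨qm (A (x.2, lab d ((Γ j).ty x.1) x.2)), hAE _⟩) (pos j x.1)
          (pos j ((Γ j).nb x.2 x.1)) =
        ∑ x ∈ (Γ j).edges, inner ℂ (c • bH U (pos j x.1))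
          (v ⟨qm (A (x.2, lab d ((Γ j).ty x.1) x.2)), hAE _⟩
            (c • bH U (pos j ((Γ j).nb x.2 x.1)))) := by
      rw [Finset.mul_sum]
      apply Finset.sum_congr rfl
      intro x _
      rw [map_smul, inner_smul_left, inner_smul_right, ← mul_assoc, hcc]
      rfl
    rw [h20]
    exact h16
  -- conclusion
  have hfin : ‖∑ f, Ψ f (A f)‖ ≤ |C| * (2 * √(d : ℝ)) :=
    le_of_tendsto hlim.norm (hl2.mono fun v hv => hup v hv)
  have h21 := hlow.trans hfin
  rw [hsd] at h21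
  have h22 : (d : ℝ) = s * s := by
    rw [hd]
    push_cast
    rfl
  rw [h22] at h21
  nlinarith

end MP27ef93
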