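import Mathlib

/-!
Typed graphs: finite bipartite graphs with vertices typed by lines of a small plane and edges
sorted by directions.  Two distinct types share at most one label.
-/

namespace MP27ef93

/-- Types: an intercept in `ZMod (4 d d)` and a slope, given by a side and an element
of `ZMod (2 d)`. -/
abbrev Ty (d : ℕ) := ZMod (4 * d * d) × (Bool × ZMod (2 * d))

/-- The integer slope of a type. -/
def slope (d : ℕ) (y : Bool × ZMod (2 * d)) : ℕ := (if y.1 then 2 * d else 0) + y.2.val

/-- The label of a type in the direction `a`. -/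
def lab (d : ℕ) (t : Ty d) (a : Fin d) : ZMod (4 * d * d) :=
  t.1 + ((a : ℕ) : ZMod (4 * d * d)) * ((slope d t.2 : ℕ) : ZMod (4 * d * d))

theorem slope_lt {d : ℕ} (hd : 0 < d) (y : Bool × ZMod (2 * d)) : slope d y < 4 * d := by
  haveI : NeZero (2 * d) := ⟨by omega⟩
  have h := ZMod.val_lt y.2
  unfold slope
  split_ifs <;> omega

theorem slope_inj {d : ℕ} (hd : 0 < d) {y z : Bool × ZMod (2 * d)} (h : slope d y = slope d z) :
    y = z := by
  haveI : NeZero (2 * d) := ⟨by omega⟩
  have h1 := ZMod.val_lt y.2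
  have h2 := ZMod.val_lt z.2
  obtain ⟨b, y⟩ := y
  obtain ⟨c, z⟩ := z
  unfold slope at h
  simp only at h h1 h2
  cases b <;> cases c <;> simp at h
  · simp [ZMod.val_injective _ h]
  · omega
  · omega
  · simp [ZMod.val_injective _ h]

/-- Two types which have the same labels in two different directions are equal. -/
theorem ty_eq_of_lab {d : ℕ} {t s : Ty d} {a b : Fin d} (hab : a ≠ b)
    (ha : lab d t a = lab d s a) (hb : lab d t b = lab d s b) : t = s := by
  have hd : 0 < d := lt_of_le_of_lt (Nat.zero_le _) a.2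
  have hz : (4 * d * d : ℕ) ≠ 0 := by positivity
  have e : ((((a : ℕ) : ℤ) - ((b : ℕ) : ℤ)) * (((slope d t.2 : ℕ) : ℤ) - ((slope d s.2 : ℕ) : ℤ)) :
      ℤ) = 0 := by
    apply Int.eq_zero_of_abs_lt_dvd (m := ((4 * d * d : ℕ) : ℤ))
    · rw [← ZMod.intCast_zmod_eq_zero_iff_dvd]
      push_cast
      unfold lab at ha hb
      linear_combination ha - hb
    · rw [abs_mul]
      have h1 : |((a : ℕ) : ℤ) - ((b : ℕ) : ℤ)| < d := by
        have := a.2
        have := b.2
        rw [abs_lt]
        constructor <;> omega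
      have h2 : |((slope d t.2 : ℕ) : ℤ) - ((slope d s.2 : ℕ) : ℤ)| < 4 * d := by
        have := slope_lt hd t.2
        have := slope_lt hd s.2
        rw [abs_lt]
        constructor <;> omega
      have h3 := abs_nonneg (((a : ℕ) : ℤ) - ((b : ℕ) : ℤ))
      have h4 := abs_nonneg (((slope d t.2 : ℕ) : ℤ) - ((slope d s.2 : ℕ) : ℤ))
      push_cast
      nlinarith
  have e2 : slope d t.2 = slope d s.2 := by
    rcases mul_eq_zero.mp e with h | h
    · exfalso
      apply hab
      apply Fin.ext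
      omega
    · omega
  have e3 := slope_inj hd e2
  have e4 : t.1 = s.1 := by
    unfold lab at ha
    rw [e3] at ha
    exact add_right_cancel ha
  exact Prod.ext e4 e3

/-- A finite graph with typed vertices and at most one edge in every direction at a vertex. -/
structure TG (d : ℕ) where
  V : Type
  fin : Fintype V
  ty : V → Ty d
  mv : Fin d → V → Option V
  sym : ∀ a v w, mv a v = some w → mv a w = some v
  labEq : ∀ a v w, mv a v = some w → lab d (ty v) a = lab d (ty w) a
  side : ∀ a v w, mv a v = some w → (ty v).2.1 = !(ty w).2.1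

attribute [instance] TG.fin

/-- There is a walk of `n` steps in both graphs with the same directions and the same types,
starting at the pair `v, w`, without immediate repetition of a direction, and whose first
direction is not `b`. -/
def AW {d : ℕ} (P Q : TG d) : ℕ → P.V → Q.V → Option (Fin d) → Prop
  | 0, v, w, _ => P.ty v = Q.ty w
  | n + 1, v, w, b => P.ty v = Q.ty w ∧ ∃ a, some a ≠ b ∧ ∃ v' w', P.mv a v = some v' ∧
      Q.mv a w = some w' ∧ AW P Q n v' w' (some a)

/-- The walks along which the types agree have bounded length. -/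
def Gd {d : ℕ} (P Q : TG d) : Prop := ∃ n, ∀ v w b, ¬ AW P Q n v w b

theorem AW_ty {d : ℕ} {P Q : TG d} : ∀ {n : ℕ} {v : P.V} {w : Q.V} {b : Option (Fin d)},
    AW P Q n v w b → P.ty v = Q.ty w
  | 0, _, _, _, h => h
  | _ + 1, _, _, _, h => h.1

/-- The least length for which there is no agreeing walk. -/
noncomputable def Lfun {d : ℕ} (P Q : TG d) (v : P.V) (w : Q.V) (b : Fin d) : ℕ :=
  sInf {n | ¬ AW P Q n v w (some b)}

theorem le_Lfun {d : ℕ} {P Q : TG d} (h : Gd P Q) {v : P.V} {w : Q.V} {b : Fin d} {m : ℕ}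
    (H : ∀ n < m, AW P Q n v w (some b)) : m ≤ Lfun P Q v w b := by
  obtain ⟨N, hN⟩ := h
  unfold Lfun
  have hne : {n | ¬ AW P Q n v w (some b)}.Nonempty := ⟨N, hN _ _ _⟩
  have hmem := Nat.sInf_mem hne
  by_contra hlt
  push Not at hlt
  exact hmem (H _ hlt)

theorem AW_of_lt_Lfun {d : ℕ} {P Q : TG d} {v : P.V} {w : Q.V} {b : Fin d} {n : ℕ}
    (H : n < Lfun P Q v w b) : AW P Q n v w (some b) := by
  by_contra hn
  have : sInf {n | ¬ AW P Q n v w (some b)} ≤ n := Nat.sInf_le hn
  unfold Lfun at H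
  omega

theorem Lfun_step {d : ℕ} {P Q : TG d} (h : Gd P Q) {v v' : P.V} {w w' : Q.V} {a b : Fin d}
    (hab : a ≠ b) (hty : P.ty v = Q.ty w) (hv : P.mv a v = some v') (hw : Q.mv a w = some w') :
    1 + Lfun P Q v' w' a ≤ Lfun P Q v w b := by
  apply le_Lfun h
  intro n hn
  cases n with
  | zero => exact hty
  | succ n =>
    refine ⟨hty, a, ?_, v', w', hv, hw, AW_of_lt_Lfun (by omega)⟩
    simpa using hab

/-- The basic exclusion: two directions cannot both be assigned to the same pair. -/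
theorem no_two {d : ℕ} {P Q : TG d} (h : Gd P Q) {v va vb : P.V} {w wa wb : Q.V} {a b : Fin d}
    (hab : a ≠ b) (hva : P.mv a v = some va) (hwa : Q.mv a w = some wa)
    (hvb : P.mv b v = some vb) (hwb : Q.mv b w = some wb)
    (hla : lab d (P.ty v) a = lab d (Q.ty w) a) (hlb : lab d (P.ty v) b = lab d (Q.ty w) b)
    (ha : Lfun P Q v w a ≤ Lfun P Q va wa a) (hb : Lfun P Q v w b ≤ Lfun P Q vb wb b) : False := by
  have hty : P.ty v = Q.ty w := ty_eq_of_lab hab hla hlb
  have h1 := Lfun_step h (Ne.symm hab) hty hvb hwb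
  have h2 := Lfun_step h hab hty hva hwa
  omega

/-- Disjoint union of a finite family. -/
def TG.sig {d : ℕ} {ι : Type} [Fintype ι] (Γ : ι → TG d) : TG d where
  V := Σ i, (Γ i).V
  fin := inferInstance
  ty := fun p => (Γ p.1).ty p.2
  mv := fun a p => ((Γ p.1).mv a p.2).map (fun w => ⟨p.1, w⟩)
  sym := by
    rintro a ⟨i, v⟩ ⟨j, w⟩ h
    simp only [Option.map_eq_some_iff] at h
    obtain ⟨x, hx, he⟩ := h
    obtain rfl : i = j := congrArg Sigma.fst he
    obtain rfl : x = w := by simpa using he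
    simp [(Γ i).sym _ _ _ hx]
  labEq := by
    rintro a ⟨i, v⟩ ⟨j, w⟩ h
    simp only [Option.map_eq_some_iff] at h
    obtain ⟨x, hx, he⟩ := h
    obtain rfl : i = j := congrArg Sigma.fst he
    obtain rfl : x = w := by simpa using he
    exact (Γ i).labEq _ _ _ hx
  side := by
    rintro a ⟨i, v⟩ ⟨j, w⟩ h
    simp only [Option.map_eq_some_iff] at h
    obtain ⟨x, hx, he⟩ := h
    obtain rfl : i = j := congrArg Sigma.fst he
    obtain rfl : x = w := by simpa using he
    exact (Γ i).side _ _ _ hx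

theorem AW_sig {d : ℕ} {ι : Type} [Fintype ι] (Γ : ι → TG d) (Q : TG d) (i : ι) :
    ∀ (n : ℕ) (v : (Γ i).V) (w : Q.V) (b : Option (Fin d)), AW (Γ i) Q n v w b →
      AW (TG.sig Γ) Q n ⟨i, v⟩ w b
  | 0, _, _, _, h => h
  | n + 1, v, w, b, h => by
    obtain ⟨h1, a, hab, v', w', hv, hw, h2⟩ := h
    refine ⟨h1, a, hab, ⟨i, v'⟩, w', ?_, hw, AW_sig Γ Q i n v' w' _ h2⟩
    simp [TG.sig, hv]

theorem Gd_sig {d : ℕ} {ι : Type} [Fintype ι] {Γ : ι → TG d} {Q : TG d} (h : Gd (TG.sig Γ) Q)
    (i : ι) : Gd (Γ i) Q := by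
  obtain ⟨n, hn⟩ := h
  exact ⟨n, fun v w b H => hn ⟨i, v⟩ w b (AW_sig Γ Q i n v w b H)⟩

/-- Set of the edges: pairs of a row vertex and a direction in which there is an edge. -/
noncomputable def TG.edges {d : ℕ} (P : TG d) : Finset (P.V × Fin d) :=
  open Classical in
  Finset.univ.filter (fun x => (P.ty x.1).2.1 = false ∧ (P.mv x.2 x.1).isSome)

end MP27ef93
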