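import Pool.Agent.Lib.MP_27ef93_an.Graph

/-!
The key inequality.
-/

namespace MP27ef93

open Finset

theorem exists_sign {ι H : Type*} [NormedAddCommGroup H] [InnerProductSpace ℂ H]
    (S : Finset ι) (x : ι → H) : ∃ θ : ι → ℂ, (∀ i, θ i = 1 ∨ θ i = -1) ∧
      ∑ i ∈ S, ‖x i‖ ^ 2 ≤ ‖∑ i ∈ S, θ i • x i‖ ^ 2 := by
  classical
  induction S using Finset.induction_on with
  | empty => exact ⟨fun _ => 1, fun _ => Or.inl rfl, by simp⟩
  | insert j S hj ih =>
    obtain ⟨θ, hθ, h⟩ := ih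
    have hp := parallelogram_law_with_norm ℂ (∑ i ∈ S, θ i • x i) (x j)
    have hS : ∀ c : ℂ, ∑ i ∈ S, Function.update θ j c i • x i = ∑ i ∈ S, θ i • x i := by
      intro c
      apply Finset.sum_congr rfl
      intro i hi
      rw [Function.update_of_ne]
      rintro rfl
      exact hj hi
    rcases le_total (‖∑ i ∈ S, θ i • x i - x j‖ ^ 2) (‖∑ i ∈ S, θ i • x i + x j‖ ^ 2) with h1 | h1
    · refine ⟨Function.update θ j 1, fun i => ?_, ?_⟩
      · by_cases hi : i = j
        · subst hi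
          simp
        · rw [Function.update_of_ne hi]
          exact hθ i
      · rw [Finset.sum_insert hj, Finset.sum_insert hj, hS, Function.update_self, one_smul,
          add_comm (x j)]
        nlinarith
    · refine ⟨Function.update θ j (-1), fun i => ?_, ?_⟩
      · by_cases hi : i = j
        · subst hi
          simp
        · rw [Function.update_of_ne hi]
          exact hθ i
      · rw [Finset.sum_insert hj, Finset.sum_insert hj, hS, Function.update_self, neg_smul,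
          one_smul, neg_add_eq_sub]
        nlinarith

/-- The neighbour in a direction (the vertex itself if there is no edge). -/
def TG.nb {d : ℕ} (P : TG d) (a : Fin d) (v : P.V) : P.V := (P.mv a v).getD v

theorem TG.mv_nb {d : ℕ} (P : TG d) {a : Fin d} {v : P.V} (h : (P.mv a v).isSome) :
    P.mv a v = some (P.nb a v) := by
  obtain ⟨w, hw⟩ := Option.isSome_iff_exists.mp h
  simp [TG.nb, hw]

theorem TG.nb_nb {d : ℕ} (P : TG d) {a : Fin d} {v : P.V} (h : (P.mv a v).isSome) :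
    P.nb a (P.nb a v) = v := by
  have h1 := P.sym _ _ _ (P.mv_nb h)
  conv_lhs => unfold TG.nb
  simp only [TG.nb] at h1 ⊢
  rw [h1]
  rfl

theorem TG.isSome_nb {d : ℕ} (P : TG d) {a : Fin d} {v : P.V} (h : (P.mv a v).isSome) :
    (P.mv a (P.nb a v)).isSome := by
  have h1 := P.sym _ _ _ (P.mv_nb h)
  simp [h1]

theorem TG.lab_nb {d : ℕ} (P : TG d) {a : Fin d} {v : P.V} (h : (P.mv a v).isSome) :
    lab d (P.ty (P.nb a v)) a = lab d (P.ty v) a :=
  (P.labEq _ _ _ (P.mv_nb h)).symm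

theorem TG.side_nb {d : ℕ} (P : TG d) {a : Fin d} {v : P.V} (h : (P.mv a v).isSome) :
    (P.ty (P.nb a v)).2.1 = !(P.ty v).2.1 := by
  have := P.side _ _ _ (P.mv_nb h)
  simp [this]

theorem sum_edges_right {d : ℕ} (P : TG d) (f : P.V → ℝ) (hf : ∀ v, 0 ≤ f v) :
    ∑ x ∈ P.edges, f (P.nb x.2 x.1) ≤ d * ∑ v, f v := by
  classical
  have h1 : ∑ x ∈ P.edges, f (P.nb x.2 x.1) ≤ ∑ x : P.V × Fin d, f x.1 := by
    have h2 : ∑ x ∈ P.edges, f (P.nb x.2 x.1) =
        ∑ x ∈ P.edges.image (fun x => (P.nb x.2 x.1, x.2)), f x.1 := by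
      rw [Finset.sum_image]
      rintro ⟨v, a⟩ hx ⟨w, b⟩ hy he
      rw [Finset.mem_coe, TG.edges, Finset.mem_filter] at hx hy
      simp only [Prod.mk.injEq] at he
      obtain ⟨he, rfl⟩ := he
      have h3 := congrArg (P.nb a) he
      rw [P.nb_nb hx.2.2, P.nb_nb hy.2.2] at h3
      exact Prod.ext h3 rfl
    rw [h2]
    exact Finset.sum_le_sum_of_subset_of_nonneg (Finset.subset_univ _) fun _ _ _ => hf _
  refine h1.trans_eq ?_
  rw [Fintype.sum_prod_type]
  simp [Finset.mul_sum]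

theorem sum_edges_left {d : ℕ} (P : TG d) (f : P.V → ℝ) (hf : ∀ v, 0 ≤ f v) :
    ∑ x ∈ P.edges, f x.1 ≤ d * ∑ v, f v := by
  classical
  have h1 : ∑ x ∈ P.edges, f x.1 ≤ ∑ x : P.V × Fin d, f x.1 :=
    Finset.sum_le_sum_of_subset_of_nonneg (Finset.subset_univ _) fun _ _ _ => hf _
  refine h1.trans_eq ?_
  rw [Fintype.sum_prod_type]
  simp [Finset.mul_sum]

/-- The key inequality. -/
theorem key {d : ℕ} (P : TG d) {Y H : Type*} [NormedAddCommGroup Y] [NormedSpace ℂ Y]
    [NormedAddCommGroup H] [InnerProductSpace ℂ H] [CompleteSpace H]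
    (A : Fin d × ZMod (4 * d * d) → Y) (r : P.V → Fin d → Y)
    (hr : ∀ u, (P.ty u).2.1 = false → ∀ θ : Fin d → ℂ, (∀ a, θ a = 1 ∨ θ a = -1) →
      ‖∑ a ∈ univ.filter (fun a => (P.mv a u).isSome), θ a • r u a‖ ≤ 1)
    (hc : ∀ w, (P.ty w).2.1 = true → ∀ θ : Fin d → ℂ, (∀ a, θ a = 1 ∨ θ a = -1) →
      ‖∑ a ∈ univ.filter (fun a => (P.mv a w).isSome),
        θ a • (A (a, lab d (P.ty w) a) - r (P.nb a w) a)‖ ≤ 1)
    (φ : Y →L[ℂ] (H →L[ℂ] H)) (hφ : ‖φ‖ ≤ 1) (ζ η : P.V → H) :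
    ‖∑ x ∈ P.edges, inner ℂ (ζ x.1) (φ (A (x.2, lab d (P.ty x.1) x.2)) (η (P.nb x.2 x.1)))‖ ≤
      2 * (√d * √(∑ v, ‖ζ v‖ ^ 2) * √(∑ v, ‖η v‖ ^ 2)) := by
  classical
  have hφ1 : ∀ y : Y, ‖y‖ ≤ 1 → ‖φ y‖ ≤ 1 := fun y hy =>
    (φ.le_opNorm y).trans (mul_le_one₀ hφ (norm_nonneg _) hy)
  -- row estimate
  have hrow : ∀ u, (P.ty u).2.1 = false →
      ∑ a ∈ univ.filter (fun a => (P.mv a u).isSome),
        ‖(ContinuousLinearMap.adjoint (φ (r u a))) (ζ u)‖ ^ 2 ≤ ‖ζ u‖ ^ 2 := by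
    intro u hu
    obtain ⟨θ, hθ, h⟩ := exists_sign (univ.filter (fun a => (P.mv a u).isSome))
      (fun a => (ContinuousLinearMap.adjoint (φ (r u a))) (ζ u))
    refine h.trans ?_
    have h2 : ∑ a ∈ univ.filter (fun a => (P.mv a u).isSome),
        θ a • (ContinuousLinearMap.adjoint (φ (r u a))) (ζ u) =
        (ContinuousLinearMap.adjoint (φ (∑ a ∈ univ.filter (fun a => (P.mv a u).isSome),
          θ a • r u a))) (ζ u) := by
      rw [map_sum, map_sum, _root_.sum_apply]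
      apply Finset.sum_congr rfl
      intro a _
      rw [map_smul, map_smulₛₗ, _root_.smul_apply]
      congr 1
      rcases hθ a with h | h <;> simp [h]
    rw [h2]
    gcongr
    refine (ContinuousLinearMap.le_opNorm _ _).trans ?_
    rw [LinearIsometryEquiv.norm_map]
    calc _ ≤ 1 * ‖ζ u‖ := by
          gcongr
          exact hφ1 _ (hr u hu θ hθ)
      _ = _ := one_mul _
  have hcol : ∀ w, (P.ty w).2.1 = true →
      ∑ a ∈ univ.filter (fun a => (P.mv a w).isSome),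
        ‖φ (A (a, lab d (P.ty w) a) - r (P.nb a w) a) (η w)‖ ^ 2 ≤ ‖η w‖ ^ 2 := by
    intro w hw
    obtain ⟨θ, hθ, h⟩ := exists_sign (univ.filter (fun a => (P.mv a w).isSome))
      (fun a => φ (A (a, lab d (P.ty w) a) - r (P.nb a w) a) (η w))
    refine h.trans ?_
    have h2 : ∑ a ∈ univ.filter (fun a => (P.mv a w).isSome),
        θ a • φ (A (a, lab d (P.ty w) a) - r (P.nb a w) a) (η w) =
        φ (∑ a ∈ univ.filter (fun a => (P.mv a w).isSome),
          θ a • (A (a, lab d (P.ty w) a) - r (P.nb a w) a)) (η w) := by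
      rw [map_sum, _root_.sum_apply]
      apply Finset.sum_congr rfl
      intro a _
      rw [map_smul, _root_.smul_apply]
    rw [h2]
    gcongr
    refine (ContinuousLinearMap.le_opNorm _ _).trans ?_
    calc _ ≤ 1 * ‖η w‖ := by
          gcongr
          exact hφ1 _ (hc w hw θ hθ)
      _ = _ := one_mul _
  -- splitting
  have hsplit : ∑ x ∈ P.edges,
      inner ℂ (ζ x.1) (φ (A (x.2, lab d (P.ty x.1) x.2)) (η (P.nb x.2 x.1))) =
      ∑ x ∈ P.edges, inner ℂ (ζ x.1) (φ (r x.1 x.2) (η (P.nb x.2 x.1))) +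
      ∑ x ∈ P.edges, inner ℂ (ζ x.1)
        (φ (A (x.2, lab d (P.ty x.1) x.2) - r x.1 x.2) (η (P.nb x.2 x.1))) := by
    rw [← Finset.sum_add_distrib]
    apply Finset.sum_congr rfl
    intro x _
    rw [map_sub, _root_.sub_apply, inner_sub_right]
    ring
  have hE : ∀ f : P.V × Fin d → ℝ, ∑ x ∈ P.edges, f x =
      ∑ u ∈ univ.filter (fun u => (P.ty u).2.1 = false),
        ∑ a ∈ univ.filter (fun a => (P.mv a u).isSome), f (u, a) := by
    intro f
    rw [Finset.sum_sigma' (univ.filter (fun u => (P.ty u).2.1 = false))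
      (fun u => univ.filter (fun a => (P.mv a u).isSome)) (fun u a => f (u, a))]
    apply Finset.sum_bij' (fun x _ => (⟨x.1, x.2⟩ : Σ _ : P.V, Fin d)) (fun x _ => (x.1, x.2))
    · rintro ⟨u, a⟩ hx
      rw [TG.edges, Finset.mem_filter] at hx
      rw [Finset.mem_sigma, Finset.mem_filter, Finset.mem_filter]
      exact ⟨⟨Finset.mem_univ _, hx.2.1⟩, Finset.mem_univ _, hx.2.2⟩
    · rintro ⟨u, a⟩ hx
      rw [Finset.mem_sigma, Finset.mem_filter, Finset.mem_filter] at hx
      rw [TG.edges, Finset.mem_filter]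
      exact ⟨Finset.mem_univ _, hx.1.2, hx.2.2⟩
    · rintro ⟨u, a⟩ hx
      rfl
    · rintro ⟨u, a⟩ hx
      rfl
    · rintro ⟨u, a⟩ hx
      rfl
  have hI : ‖∑ x ∈ P.edges, inner ℂ (ζ x.1) (φ (r x.1 x.2) (η (P.nb x.2 x.1)))‖ ≤
      √d * √(∑ v, ‖ζ v‖ ^ 2) * √(∑ v, ‖η v‖ ^ 2) := by
    calc ‖∑ x ∈ P.edges, inner ℂ (ζ x.1) (φ (r x.1 x.2) (η (P.nb x.2 x.1)))‖
        ≤ ∑ x ∈ P.edges, ‖(ContinuousLinearMap.adjoint (φ (r x.1 x.2))) (ζ x.1)‖ *
            ‖η (P.nb x.2 x.1)‖ := by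
          refine (norm_sum_le _ _).trans (Finset.sum_le_sum fun x _ => ?_)
          rw [← ContinuousLinearMap.adjoint_inner_left]
          exact norm_inner_le_norm _ _
      _ ≤ √(∑ x ∈ P.edges, ‖(ContinuousLinearMap.adjoint (φ (r x.1 x.2))) (ζ x.1)‖ ^ 2) *
            √(∑ x ∈ P.edges, ‖η (P.nb x.2 x.1)‖ ^ 2) := Real.sum_mul_le_sqrt_mul_sqrt _ _ _
      _ ≤ √(∑ v, ‖ζ v‖ ^ 2) * √(d * ∑ v, ‖η v‖ ^ 2) := by
          gcongr
          · rw [hE (fun x => ‖(ContinuousLinearMap.adjoint (φ (r x.1 x.2))) (ζ x.1)‖ ^ 2)]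
            refine (Finset.sum_le_sum fun u hu => hrow u (Finset.mem_filter.mp hu).2).trans ?_
            exact Finset.sum_le_sum_of_subset_of_nonneg (Finset.subset_univ _)
              fun _ _ _ => sq_nonneg _
          · exact sum_edges_right P (fun v => ‖η v‖ ^ 2) (fun v => sq_nonneg _)
      _ = _ := by
          rw [Real.sqrt_mul (Nat.cast_nonneg d)]
          ring
  have hII : ‖∑ x ∈ P.edges, inner ℂ (ζ x.1)
        (φ (A (x.2, lab d (P.ty x.1) x.2) - r x.1 x.2) (η (P.nb x.2 x.1)))‖ ≤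
      √d * √(∑ v, ‖ζ v‖ ^ 2) * √(∑ v, ‖η v‖ ^ 2) := by
    calc ‖∑ x ∈ P.edges, inner ℂ (ζ x.1)
          (φ (A (x.2, lab d (P.ty x.1) x.2) - r x.1 x.2) (η (P.nb x.2 x.1)))‖
        ≤ ∑ x ∈ P.edges, ‖ζ x.1‖ *
            ‖φ (A (x.2, lab d (P.ty x.1) x.2) - r x.1 x.2) (η (P.nb x.2 x.1))‖ := by
          refine (norm_sum_le _ _).trans (Finset.sum_le_sum fun x _ => ?_)
          exact norm_inner_le_norm _ _
      _ ≤ √(∑ x ∈ P.edges, ‖ζ x.1‖ ^ 2) * √(∑ x ∈ P.edges,
            ‖φ (A (x.2, lab d (P.ty x.1) x.2) - r x.1 x.2) (η (P.nb x.2 x.1))‖ ^ 2) :=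
          Real.sum_mul_le_sqrt_mul_sqrt _ _ _
      _ ≤ √(d * ∑ v, ‖ζ v‖ ^ 2) * √(∑ v, ‖η v‖ ^ 2) := by
          gcongr
          · exact sum_edges_left P (fun v => ‖ζ v‖ ^ 2) (fun v => sq_nonneg _)
          · set f : P.V × Fin d → ℝ := fun y =>
              ‖φ (A (y.2, lab d (P.ty y.1) y.2) - r (P.nb y.2 y.1) y.2) (η y.1)‖ ^ 2 with hf
            have h3 : ∑ x ∈ P.edges,
                ‖φ (A (x.2, lab d (P.ty x.1) x.2) - r x.1 x.2) (η (P.nb x.2 x.1))‖ ^ 2 =
                ∑ y ∈ P.edges.image (fun x => (P.nb x.2 x.1, x.2)), f y := by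
              rw [Finset.sum_image]
              · apply Finset.sum_congr rfl
                rintro ⟨u, a⟩ hx
                rw [TG.edges, Finset.mem_filter] at hx
                simp only [hf]
                rw [P.nb_nb hx.2.2, P.lab_nb hx.2.2]
              · rintro ⟨v, a⟩ hx ⟨w, b⟩ hy he
                rw [Finset.mem_coe, TG.edges, Finset.mem_filter] at hx hy
                simp only [Prod.mk.injEq] at he
                obtain ⟨he, rfl⟩ := he
                have h3 := congrArg (P.nb a) he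
                rw [P.nb_nb hx.2.2, P.nb_nb hy.2.2] at h3
                exact Prod.ext h3 rfl
            rw [h3]
            calc ∑ y ∈ P.edges.image (fun x => (P.nb x.2 x.1, x.2)), f y
                ≤ ∑ y ∈ (univ.filter (fun w => (P.ty w).2.1 = true)).sigma
                    (fun w => univ.filter (fun a => (P.mv a w).isSome)), f (y.1, y.2) := by
                  have h4 : ∑ y ∈ P.edges.image (fun x => (P.nb x.2 x.1, x.2)), f y =
                      ∑ y ∈ (P.edges.image (fun x => (P.nb x.2 x.1, x.2))).image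
                        (fun y => (⟨y.1, y.2⟩ : Σ _ : P.V, Fin d)), f (y.1, y.2) := by
                    symm
                    refine Finset.sum_image
                      (f := fun y : (Σ _ : P.V, Fin d) => f (y.1, y.2)) ?_
                    rintro ⟨v, a⟩ _ ⟨w, b⟩ _ he
                    simpa using he
                  rw [h4]
                  apply Finset.sum_le_sum_of_subset_of_nonneg
                  · intro y hy
                    simp only [Finset.mem_image] at hy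
                    obtain ⟨z, ⟨⟨u, a⟩, hu, rfl⟩, rfl⟩ := hy
                    rw [TG.edges, Finset.mem_filter] at hu
                    rw [Finset.mem_sigma, Finset.mem_filter, Finset.mem_filter]
                    simp only
                    refine ⟨⟨Finset.mem_univ _, ?_⟩, Finset.mem_univ _, P.isSome_nb hu.2.2⟩
                    rw [P.side_nb hu.2.2, hu.2.1]
                    rfl
                  · intro y _ _
                    exact sq_nonneg _
              _ = ∑ w ∈ univ.filter (fun w => (P.ty w).2.1 = true),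
                    ∑ a ∈ univ.filter (fun a => (P.mv a w).isSome), f (w, a) :=
                  Finset.sum_sigma _ _ _
              _ ≤ ∑ w ∈ univ.filter (fun w => (P.ty w).2.1 = true), ‖η w‖ ^ 2 :=
                  Finset.sum_le_sum fun w hw => hcol w (Finset.mem_filter.mp hw).2
              _ ≤ _ := Finset.sum_le_sum_of_subset_of_nonneg (Finset.subset_univ _)
                  fun _ _ _ => sq_nonneg _
      _ = _ := by
          rw [Real.sqrt_mul (Nat.cast_nonneg d)]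
  rw [hsplit]
  refine (norm_add_le _ _).trans ?_
  linarith

/-- The key inequality for maps of arbitrary norm. -/
theorem key_norm {d : ℕ} (P : TG d) {Y H : Type*} [NormedAddCommGroup Y] [NormedSpace ℂ Y]
    [NormedAddCommGroup H] [InnerProductSpace ℂ H] [CompleteSpace H]
    (A : Fin d × ZMod (4 * d * d) → Y) (r : P.V → Fin d → Y)
    (hr : ∀ u, (P.ty u).2.1 = false → ∀ θ : Fin d → ℂ, (∀ a, θ a = 1 ∨ θ a = -1) →
      ‖∑ a ∈ univ.filter (fun a => (P.mv a u).isSome), θ a • r u a‖ ≤ 1)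
    (hc : ∀ w, (P.ty w).2.1 = true → ∀ θ : Fin d → ℂ, (∀ a, θ a = 1 ∨ θ a = -1) →
      ‖∑ a ∈ univ.filter (fun a => (P.mv a w).isSome),
        θ a • (A (a, lab d (P.ty w) a) - r (P.nb a w) a)‖ ≤ 1)
    (u : Y →L[ℂ] (H →L[ℂ] H)) (ζ η : P.V → H) :
    ‖∑ x ∈ P.edges, inner ℂ (ζ x.1) (u (A (x.2, lab d (P.ty x.1) x.2)) (η (P.nb x.2 x.1)))‖ ≤
      ‖u‖ * (2 * (√d * √(∑ v, ‖ζ v‖ ^ 2) * √(∑ v, ‖η v‖ ^ 2))) := by
  by_cases h0 : ‖u‖ = 0
  · have hu : u = 0 := norm_eq_zero.mp h0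
    subst hu
    simp
  · have hpos : 0 < ‖u‖ := lt_of_le_of_ne (norm_nonneg _) (Ne.symm h0)
    set φ : Y →L[ℂ] (H →L[ℂ] H) := (((‖u‖)⁻¹ : ℝ) : ℂ) • u with hφdef
    have hφ : ‖φ‖ ≤ 1 := by
      rw [hφdef, norm_smul, Complex.norm_real, Real.norm_eq_abs, abs_of_pos (by positivity),
        inv_mul_cancel₀ h0]
    have hkey := key P A r hr hc φ hφ ζ η
    have hsum : ∑ x ∈ P.edges,
        inner ℂ (ζ x.1) (φ (A (x.2, lab d (P.ty x.1) x.2)) (η (P.nb x.2 x.1))) =
        (((‖u‖)⁻¹ : ℝ) : ℂ) * ∑ x ∈ P.edges,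
          inner ℂ (ζ x.1) (u (A (x.2, lab d (P.ty x.1) x.2)) (η (P.nb x.2 x.1))) := by
      rw [Finset.mul_sum]
      apply Finset.sum_congr rfl
      intro x _
      rw [hφdef, _root_.smul_apply, _root_.smul_apply, inner_smul_right]
    rw [hsum, norm_mul, Complex.norm_real, Real.norm_eq_abs, abs_of_pos (by positivity),
      inv_mul_le_iff₀ hpos] at hkey
    exact hkey

end MP27ef93
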