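import Pool.Agent.Lib.MP_27ef93_an.Ops
import Pool.Agent.Lib.MP_27ef93_an.Key
import Pool.Agent.Lib.MP_27ef93_an.Exist

/-!
The operators attached to a sequence of typed graphs.
-/

namespace MP27ef93

open Finset

/-- The Calkin algebra of `H`, as a Banach space. -/
def Calkin (H : Type*) [NormedAddCommGroup H] [InnerProductSpace ℂ H] : Type _ :=
  (H →L[ℂ] H) ⧸ (compactOperator (RingHom.id ℂ) H H)

section

variable {H : Type*} [NormedAddCommGroup H] [InnerProductSpace ℂ H]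

theorem isClosed_compactOperator [CompleteSpace H] :
    IsClosed ((compactOperator (RingHom.id ℂ) H H : Submodule ℂ (H →L[ℂ] H)) :
      Set (H →L[ℂ] H)) := isClosed_setOfPred_isCompactOperator

instance instClosedCompact [CompleteSpace H] :
    IsClosed ((compactOperator (RingHom.id ℂ) H H : Submodule ℂ (H →L[ℂ] H)) :
      Set (H →L[ℂ] H)) := isClosed_compactOperator

noncomputable instance instCalkinNormed [CompleteSpace H] : NormedAddCommGroup (Calkin H) :=
  Submodule.Quotient.normedAddCommGroup (compactOperator (RingHom.id ℂ) H H)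

noncomputable instance instCalkinSpace [CompleteSpace H] : NormedSpace ℂ (Calkin H) :=
  Submodule.Quotient.normedSpace (compactOperator (RingHom.id ℂ) H H) ℂ

variable [CompleteSpace H]

/-- The quotient map onto the Calkin algebra. -/
noncomputable def qm : (H →L[ℂ] H) →ₗ[ℂ] Calkin H :=
  (compactOperator (RingHom.id ℂ) H H).mkQ

theorem norm_qm_le (T : H →L[ℂ] H) : ‖qm T‖ ≤ ‖T‖ :=
  Submodule.Quotient.norm_mk_le _ T

theorem qm_eq_zero {T : H →L[ℂ] H} (h : IsCompactOperator T) : qm T = 0 :=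
  (Submodule.Quotient.mk_eq_zero _).mpr h

theorem compact_of_qm {T : H →L[ℂ] H} (h : qm T = 0) : IsCompactOperator T :=
  (Submodule.Quotient.mk_eq_zero _).mp h

end

open Classical in
theorem PM_sum {d : ℕ} (S : Finset (Fin d)) (θ : Fin d → ℂ) (hθ : ∀ a, ‖θ a‖ ≤ 1)
    (c : Fin d → ℕ → ℕ → Prop)
    (h1 : ∀ a ∈ S, ∀ b ∈ S, ∀ n m m', c a n m → c b n m' → a = b ∧ m = m')
    (h2 : ∀ a ∈ S, ∀ b ∈ S, ∀ n n' m, c a n m → c b n' m → a = b ∧ n = n') :
    PM (fun n m => ∑ a ∈ S, θ a * (if c a n m then 1 else 0)) := by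
  have h3 : ∀ n m, ∑ a ∈ S, θ a * (if c a n m then 1 else 0) ≠ 0 → ∃ a ∈ S, c a n m := by
    intro n m hne
    by_contra hcon
    push Not at hcon
    apply hne
    apply Finset.sum_eq_zero
    intro a ha
    rw [if_neg (hcon a ha), mul_zero]
  refine ⟨fun n m => ?_, fun n m m' hm hm' => ?_, fun n n' m hm hm' => ?_⟩
  · by_cases hex : ∃ a ∈ S, c a n m
    · obtain ⟨a, ha, hc⟩ := hex
      rw [Finset.sum_eq_single a]
      · rw [if_pos hc, mul_one]
        exact hθ a
      · intro b hb hba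
        rw [if_neg, mul_zero]
        intro hcb
        exact hba (h1 b hb a ha n m m hcb hc).1
      · intro hna
        exact absurd ha hna
    · push Not at hex
      rw [Finset.sum_eq_zero]
      · simp
      · intro a ha
        rw [if_neg (hex a ha), mul_zero]
  · obtain ⟨a, ha, hc⟩ := h3 n m hm
    obtain ⟨b, hb, hc'⟩ := h3 n m' hm'
    exact (h1 a ha b hb n m m' hc hc').2
  · obtain ⟨a, ha, hc⟩ := h3 n m hm
    obtain ⟨b, hb, hc'⟩ := h3 n' m hm'
    exact (h2 a ha b hb n n' m hc hc').2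

open Classical in
theorem exists_op_of_prop {H : Type*} [NormedAddCommGroup H] [InnerProductSpace ℂ H]
    (U : H ≃ₗᵢ[ℂ] H2) {c : ℕ → ℕ → Prop}
    (h1 : ∀ n m m', c n m → c n m' → m = m') (h2 : ∀ n n' m, c n m → c n' m → n = n') :
    ∃ T : H →L[ℂ] H, ∀ n m, cH U T n m = if c n m then 1 else 0 := by
  have h : PM (fun n m => if c n m then (1 : ℂ) else 0) := by
    refine ⟨fun n m => ?_, fun n m m' hm hm' => ?_, fun n n' m hm hm' => ?_⟩
    · split_ifs <;> simp
    · simp only [ne_eq, ite_eq_right_iff, one_ne_zero, imp_false, not_not] at hm hm'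
      exact h1 n m m' hm hm'
    · simp only [ne_eq, ite_eq_right_iff, one_ne_zero, imp_false, not_not] at hm hm'
      exact h2 n n' m hm hm'
  obtain ⟨T, _, hT⟩ := exists_opH U h
  exact ⟨T, hT⟩

section

variable {d : ℕ} (Γ : ℕ → TG d)

/-- The entries of the operator of the label `f`. -/
def AC (f : Fin d × ZMod (4 * d * d)) (p q : Σ i, (Γ i).V) : Prop :=
  ((Γ p.1).ty p.2).2.1 = false ∧ lab d ((Γ p.1).ty p.2) f.1 = f.2 ∧
    ∃ v', (Γ p.1).mv f.1 p.2 = some v' ∧ q = ⟨p.1, v'⟩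

/-- The condition for the row part. -/
def LC (j : ℕ) (u : (Γ j).V) (a : Fin d) (p : Σ i, (Γ i).V) : Prop :=
  ∃ v' u', (Γ p.1).mv a p.2 = some v' ∧ (Γ j).mv a u = some u' ∧
    Lfun (Γ j) (Γ p.1) u p.2 a ≤ Lfun (Γ j) (Γ p.1) u' v' a

/-- The entries of the row part. -/
def RC (j : ℕ) (u : (Γ j).V) (a : Fin d) (p q : Σ i, (Γ i).V) : Prop :=
  AC Γ (a, lab d ((Γ j).ty u) a) p q ∧ j < p.1 ∧ LC Γ j u a p

/-- The entries of the column part. -/
def CC (j : ℕ) (u : (Γ j).V) (a : Fin d) (p q : Σ i, (Γ i).V) : Prop :=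
  AC Γ (a, lab d ((Γ j).ty u) a) p q ∧ j < p.1 ∧ ¬ LC Γ j u a p

variable {Γ}

theorem AC_row {f : Fin d × ZMod (4 * d * d)} {p q q' : Σ i, (Γ i).V} (h : AC Γ f p q)
    (h' : AC Γ f p q') : q = q' := by
  obtain ⟨_, _, v, hv, rfl⟩ := h
  obtain ⟨_, _, v', hv', rfl⟩ := h'
  rw [hv] at hv'
  cases hv'
  rfl

theorem AC_col {f : Fin d × ZMod (4 * d * d)} {p p' q : Σ i, (Γ i).V} (h : AC Γ f p q)
    (h' : AC Γ f p' q) : p = p' := by
  obtain ⟨i, v⟩ := p
  obtain ⟨i', v'⟩ := p'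
  obtain ⟨_, _, w, hw, rfl⟩ := h
  obtain ⟨_, _, w', hw', he⟩ := h'
  simp only at hw hw' he
  obtain rfl : i = i' := congrArg Sigma.fst he
  obtain rfl : w = w' := by simpa using he
  have h1 := (Γ i).sym _ _ _ hw
  have h2 := (Γ i).sym _ _ _ hw'
  rw [h1] at h2
  cases h2
  rfl

/-- The label of the column vertex. -/
theorem AC_lab {f : Fin d × ZMod (4 * d * d)} {p q : Σ i, (Γ i).V} (h : AC Γ f p q) :
    lab d ((Γ q.1).ty q.2) f.1 = f.2 ∧ ((Γ q.1).ty q.2).2.1 = true := by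
  obtain ⟨hs, hl, w, hw, rfl⟩ := h
  refine ⟨?_, ?_⟩
  · rw [← hl]
    exact ((Γ p.1).labEq _ _ _ hw).symm
  · have := (Γ p.1).side _ _ _ hw
    rw [hs] at this
    simpa using this.symm

theorem RC_row (hG : ∀ m n, m < n → Gd (Γ m) (Γ n)) {j : ℕ} {u : (Γ j).V} {a b : Fin d}
    {p q q' : Σ i, (Γ i).V} (h : RC Γ j u a p q) (h' : RC Γ j u b p q') : a = b ∧ q = q' := by
  by_cases hab : a = b
  · subst hab
    exact ⟨rfl, AC_row h.1 h'.1⟩
  · exfalso
    obtain ⟨⟨hs, hl, w, hw, rfl⟩, hj, v1, u1, hv1, hu1, hL1⟩ := h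
    obtain ⟨⟨hs', hl', w', hw', rfl⟩, hj', v2, u2, hv2, hu2, hL2⟩ := h'
    exact no_two (hG _ _ hj) hab hu1 hv1 hu2 hv2 hl.symm hl'.symm hL1 hL2

theorem RC_col {j : ℕ} {u : (Γ j).V} (hu : ((Γ j).ty u).2.1 = false) {a b : Fin d}
    {p p' q : Σ i, (Γ i).V} (h : RC Γ j u a p q) (h' : RC Γ j u b p' q) : a = b ∧ p = p' := by
  by_cases hab : a = b
  · subst hab
    exact ⟨rfl, AC_col h.1 h'.1⟩
  · exfalso
    have h1 := AC_lab h.1
    have h2 := AC_lab h'.1
    have h3 := ty_eq_of_lab hab h1.1 h2.1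
    have h4 := h1.2
    rw [h3, hu] at h4
    exact absurd h4 (by simp)

theorem CC_row {j : ℕ} {w : (Γ j).V} (hw : ((Γ j).ty w).2.1 = true) {a b : Fin d}
    (ha : ((Γ j).mv a w).isSome) (hb : ((Γ j).mv b w).isSome)
    {p q q' : Σ i, (Γ i).V} (h : CC Γ j ((Γ j).nb a w) a p q)
    (h' : CC Γ j ((Γ j).nb b w) b p q') : a = b ∧ q = q' := by
  by_cases hab : a = b
  · subst hab
    exact ⟨rfl, AC_row h.1 h'.1⟩
  · exfalso
    have h1 := h.1.2.1
    have h2 := h'.1.2.1
    simp only at h1 h2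
    rw [(Γ j).lab_nb ha] at h1
    rw [(Γ j).lab_nb hb] at h2
    have h3 := ty_eq_of_lab hab h1 h2
    have h4 := h.1.1
    rw [h3, hw] at h4
    exact absurd h4 (by simp)

theorem CC_col (hG : ∀ m n, m < n → Gd (Γ m) (Γ n)) {j : ℕ} {w : (Γ j).V} {a b : Fin d}
    (ha : ((Γ j).mv a w).isSome) (hb : ((Γ j).mv b w).isSome)
    {p p' q : Σ i, (Γ i).V} (h : CC Γ j ((Γ j).nb a w) a p q)
    (h' : CC Γ j ((Γ j).nb b w) b p' q) : a = b ∧ p = p' := by
  obtain ⟨i, v⟩ := p
  obtain ⟨i', v'⟩ := p'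
  by_cases hab : a = b
  · subst hab
    exact ⟨rfl, AC_col h.1 h'.1⟩
  · exfalso
    obtain ⟨⟨hs, hl, x, hx, rfl⟩, hj, hL⟩ := h
    obtain ⟨⟨hs', hl', x', hx', he⟩, hj', hL'⟩ := h'
    simp only at hs hl hx hj hs' hl' hx' he hj'
    obtain rfl : i = i' := congrArg Sigma.fst he
    obtain rfl : x = x' := by simpa using he
    have hax := (Γ i).sym _ _ _ hx
    have hbx := (Γ i).sym _ _ _ hx'
    have hla := (Γ i).labEq _ _ _ hx
    have hlb := (Γ i).labEq _ _ _ hx'
    rw [(Γ j).lab_nb ha] at hl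
    rw [(Γ j).lab_nb hb] at hl'
    refine no_two (hG _ _ hj) hab ((Γ j).mv_nb ha) hax ((Γ j).mv_nb hb) hbx
      (hl.symm.trans hla) (hl'.symm.trans hlb) ?_ ?_
    · by_contra hcon
      push Not at hcon
      exact hL ⟨x, w, hx, (Γ j).sym _ _ _ ((Γ j).mv_nb ha), hcon.le⟩
    · by_contra hcon
      push Not at hcon
      exact hL' ⟨x, w, hx', (Γ j).sym _ _ _ ((Γ j).mv_nb hb), hcon.le⟩

end

/-- The operators attached to the sequence of graphs. -/
theorem calkin_data {H : Type*} [NormedAddCommGroup H] [InnerProductSpace ℂ H]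
    [CompleteSpace H] (U : H ≃ₗᵢ[ℂ] H2) (d : ℕ) [NeZero d] : ∃ (Γ : ℕ → TG d)
    (A : Fin d × ZMod (4 * d * d) → (H →L[ℂ] H)) (pos : ∀ j, (Γ j).V → ℕ)
    (r : ∀ j, (Γ j).V → Fin d → Calkin H),
    (∀ j, Nonempty (Γ j).V ∧ d * Fintype.card (Γ j).V ≤ 4 * (Γ j).edges.card) ∧
    (∀ j v a, (v, a) ∈ (Γ j).edges →
      cH U (A (a, lab d ((Γ j).ty v) a)) (pos j v) (pos j ((Γ j).nb a v)) = 1) ∧
    (∀ N, ∀ᶠ j in Filter.atTop, ∀ v, N ≤ pos j v) ∧
    (∀ j, Function.Injective (pos j)) ∧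
    (∀ j, ∀ u, ((Γ j).ty u).2.1 = false → ∀ θ : Fin d → ℂ, (∀ a, θ a = 1 ∨ θ a = -1) →
      ‖∑ a ∈ univ.filter (fun a => ((Γ j).mv a u).isSome), θ a • r j u a‖ ≤ 1) ∧
    (∀ j, ∀ w, ((Γ j).ty w).2.1 = true → ∀ θ : Fin d → ℂ, (∀ a, θ a = 1 ∨ θ a = -1) →
      ‖∑ a ∈ univ.filter (fun a => ((Γ j).mv a w).isSome),
        θ a • (qm (A (a, lab d ((Γ j).ty w) a)) - r j ((Γ j).nb a w) a)‖ ≤ 1) := by
  classical
  obtain ⟨Γ, hΓ, hG⟩ := exists_seq_TG d
  have : ∀ j, Nonempty (Γ j).V := fun j => (hΓ j).1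
  have hinf : Infinite (Σ i, (Γ i).V) :=
    Infinite.of_injective (fun i : ℕ => (⟨i, Classical.arbitrary _⟩ : Σ i, (Γ i).V))
      (fun i j h => congrArg Sigma.fst h)
  obtain ⟨e⟩ : Nonempty (ℕ ≃ Σ i, (Γ i).V) := nonempty_equiv_of_countable
  have hA : ∀ f : Fin d × ZMod (4 * d * d), ∃ T : H →L[ℂ] H,
      ∀ n m, cH U T n m = if AC Γ f (e n) (e m) then 1 else 0 := by
    intro f
    refine exists_op_of_prop U (c := fun n m => AC Γ f (e n) (e m))
      (fun n m m' h h' => e.injective (AC_row h h')) (fun n n' m h h' => e.injective (AC_col h h'))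
  choose A hAc using hA
  have hR : ∀ (j : ℕ) (u : (Γ j).V) (a : Fin d), ∃ T : H →L[ℂ] H,
      ∀ n m, cH U T n m = if RC Γ j u a (e n) (e m) then 1 else 0 := by
    intro j u a
    refine exists_op_of_prop U (c := fun n m => RC Γ j u a (e n) (e m))
      (fun n m m' h h' => e.injective (AC_row h.1 h'.1))
      (fun n n' m h h' => e.injective (AC_col h.1 h'.1))
  choose R hRc using hR
  have hC : ∀ (j : ℕ) (u : (Γ j).V) (a : Fin d), ∃ T : H →L[ℂ] H,
      ∀ n m, cH U T n m = if CC Γ j u a (e n) (e m) then 1 else 0 := by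
    intro j u a
    refine exists_op_of_prop U (c := fun n m => CC Γ j u a (e n) (e m))
      (fun n m m' h h' => e.injective (AC_row h.1 h'.1))
      (fun n n' m h h' => e.injective (AC_col h.1 h'.1))
  choose C hCc using hC
  -- the difference is compact
  have hARC : ∀ j u a, qm (A (a, lab d ((Γ j).ty u) a)) - qm (R j u a) = qm (C j u a) := by
    intro j u a
    rw [← sub_eq_zero, ← map_sub, ← map_sub]
    apply qm_eq_zero
    have hfin : {n : ℕ | (e n).1 ≤ j}.Finite := by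
      have h1 : {p : Σ i, (Γ i).V | p.1 ≤ j}.Finite := by
        have h2 : {p : Σ i, (Γ i).V | p.1 ≤ j} ⊆
            ((Finset.range (j + 1)).sigma (fun i => (univ : Finset (Γ i).V)) :
              Finset (Σ i, (Γ i).V)) := by
          intro p hp
          simp only [Finset.coe_sigma, Set.mem_sigma_iff, Finset.mem_coe, Finset.mem_range,
            Finset.mem_univ, and_true]
          have : p.1 ≤ j := hp
          omega
        exact (Finset.finite_toSet _).subset h2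
      exact h1.preimage e.injective.injOn
    apply compact_of_rowsH U hfin.toFinset
    intro n hn m
    rw [Set.Finite.mem_toFinset] at hn
    have hn' : j < (e n).1 := by
      simpa using hn
    rw [cH_sub, cH_sub, hAc, hRc, hCc]
    by_cases h1 : AC Γ (a, lab d ((Γ j).ty u) a) (e n) (e m)
    · by_cases h2 : LC Γ j u a (e n)
      · rw [if_pos h1, if_pos ⟨h1, hn', h2⟩, if_neg (fun h => h.2.2 h2)]
        ring
      · rw [if_pos h1, if_neg (fun h => h2 h.2.2), if_pos ⟨h1, hn', h2⟩]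
        ring
    · rw [if_neg h1, if_neg (fun h => h1 h.1), if_neg (fun h => h1 h.1)]
      ring
  have hθ1 : ∀ θ : Fin d → ℂ, (∀ a, θ a = 1 ∨ θ a = -1) → ∀ a, ‖θ a‖ ≤ 1 := by
    intro θ hθ a
    rcases hθ a with h | h <;> simp [h]
  refine ⟨Γ, A, fun j v => e.symm ⟨j, v⟩, fun j u a => qm (R j u a), hΓ, ?_, ?_, ?_, ?_, ?_⟩
  · intro j v a hva
    rw [TG.edges, Finset.mem_filter] at hva
    rw [hAc, if_pos]
    rw [Equiv.apply_symm_apply, Equiv.apply_symm_apply]
    exact ⟨hva.2.1, rfl, _, (Γ j).mv_nb hva.2.2, rfl⟩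
  · intro N
    have hfin : {j : ℕ | ∃ n < N, (e n).1 = j}.Finite := by
      have : {j : ℕ | ∃ n < N, (e n).1 = j} = (fun n => (e n).1) '' {n | n < N} := by
        ext j
        simp
      rw [this]
      exact (Set.finite_lt_nat N).image _
    obtain ⟨M, hM⟩ := hfin.bddAbove
    filter_upwards [Filter.eventually_gt_atTop M] with j hj v
    by_contra hcon
    push Not at hcon
    have := hM ⟨_, hcon, rfl⟩
    rw [Equiv.apply_symm_apply] at this
    simp only at this
    omega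
  · intro j v w h
    have := e.symm.injective h
    simpa using this
  · intro j u hu θ hθ
    have h1 : ∑ a ∈ univ.filter (fun a => ((Γ j).mv a u).isSome), θ a • qm (R j u a) =
        qm (∑ a ∈ univ.filter (fun a => ((Γ j).mv a u).isSome), θ a • R j u a) := by
      rw [map_sum]
      simp only [map_smul]
    rw [h1]
    refine (norm_qm_le _).trans (norm_le_of_PMH U ?_)
    have h2 : cH U (∑ a ∈ univ.filter (fun a => ((Γ j).mv a u).isSome), θ a • R j u a) =
        fun n m => ∑ a ∈ univ.filter (fun a => ((Γ j).mv a u).isSome),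
          θ a * (if RC Γ j u a (e n) (e m) then 1 else 0) := by
      funext n m
      rw [cH_sum]
      simp only [cH_smul, hRc]
    rw [h2]
    refine PM_sum _ θ (hθ1 θ hθ) (fun a n m => RC Γ j u a (e n) (e m)) ?_ ?_
    · intro a _ b _ n m m' h h'
      have := RC_row hG h h'
      exact ⟨this.1, e.injective this.2⟩
    · intro a _ b _ n n' m h h'
      have := RC_col hu h h'
      exact ⟨this.1, e.injective this.2⟩
  · intro j w hw θ hθ
    have h1 : ∑ a ∈ univ.filter (fun a => ((Γ j).mv a w).isSome),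
        θ a • (qm (A (a, lab d ((Γ j).ty w) a)) - qm (R j ((Γ j).nb a w) a)) =
        qm (∑ a ∈ univ.filter (fun a => ((Γ j).mv a w).isSome), θ a • C j ((Γ j).nb a w) a) := by
      rw [map_sum]
      apply Finset.sum_congr rfl
      intro a ha
      rw [Finset.mem_filter] at ha
      rw [map_smul, ← hARC, (Γ j).lab_nb ha.2]
    rw [h1]
    refine (norm_qm_le _).trans (norm_le_of_PMH U ?_)
    have h2 : cH U (∑ a ∈ univ.filter (fun a => ((Γ j).mv a w).isSome),
          θ a • C j ((Γ j).nb a w) a) =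
        fun n m => ∑ a ∈ univ.filter (fun a => ((Γ j).mv a w).isSome),
          θ a * (if CC Γ j ((Γ j).nb a w) a (e n) (e m) then 1 else 0) := by
      funext n m
      rw [cH_sum]
      simp only [cH_smul, hCc]
    rw [h2]
    refine PM_sum _ θ (hθ1 θ hθ) (fun a n m => CC Γ j ((Γ j).nb a w) a (e n) (e m)) ?_ ?_
    · intro a ha b hb n m m' h h'
      rw [Finset.mem_filter] at ha hb
      have := CC_row hw ha.2 hb.2 h h'
      exact ⟨this.1, e.injective this.2⟩
    · intro a ha b hb n n' m h h'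
      rw [Finset.mem_filter] at ha hb
      have := CC_col hG ha.2 hb.2 h h'
      exact ⟨this.1, e.injective this.2⟩

end MP27ef93
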