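import Mathlib

/-!
Operators on the Hilbert space of square summable sequences given by matrices with at most one
non-zero entry in every row and in every column.
-/

namespace MP27ef93

open Finset

/-- The Hilbert space of square summable complex sequences. -/
abbrev H2 : Type := lp (fun _ : ℕ => ℂ) 2

/-- The vectors of the standard basis. -/
noncomputable def bv (m : ℕ) : H2 := lp.single 2 m (1 : ℂ)

/-- Matrix coefficients. -/
noncomputable def co (T : H2 →L[ℂ] H2) (n m : ℕ) : ℂ := (T (bv m)) n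

theorem ext_co {T S : H2 →L[ℂ] H2} (h : ∀ n m, co T n m = co S n m) : T = S := by
  apply lp.ext_continuousLinearMap (by simp)
  intro m
  ext
  simp only [ContinuousLinearMap.comp_apply, lp.singleContinuousLinearMap_apply]
  exact h _ m

/-- Matrices of contractive weighted matchings. -/
structure PM (M : ℕ → ℕ → ℂ) : Prop where
  le : ∀ n m, ‖M n m‖ ≤ 1
  row : ∀ n m m', M n m ≠ 0 → M n m' ≠ 0 → m = m'
  col : ∀ n n' m, M n m ≠ 0 → M n' m ≠ 0 → n = n'

theorem exists_op {M : ℕ → ℕ → ℂ} (h : PM M) : ∃ T : H2 →L[ℂ] H2, ‖T‖ ≤ 1 ∧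
    ∀ n m, co T n m = M n m := by
  classical
  -- the column of the non-zero entry in a row
  set σ : ℕ → ℕ := fun n => if hn : ∃ m, M n m ≠ 0 then hn.choose else 0 with hσ
  have hσ1 : ∀ n m, M n m ≠ 0 → σ n = m := by
    intro n m hnm
    have hn : ∃ m, M n m ≠ 0 := ⟨m, hnm⟩
    simp only [hσ, dif_pos hn]
    exact h.row _ _ _ hn.choose_spec hnm
  have hb : ∀ (ξ : H2) (s : Finset ℕ), ∑ n ∈ s, ‖M n (σ n) * ξ (σ n)‖ ^ ENNReal.toReal 2 ≤
      ‖ξ‖ ^ ENNReal.toReal 2 := by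
    intro ξ s
    have h1 : ∑ n ∈ s, ‖M n (σ n) * ξ (σ n)‖ ^ ENNReal.toReal 2 =
        ∑ n ∈ s.filter (fun n => M n (σ n) ≠ 0), ‖M n (σ n) * ξ (σ n)‖ ^ ENNReal.toReal 2 := by
      rw [Finset.sum_filter]
      apply Finset.sum_congr rfl
      intro n _
      by_cases hn : M n (σ n) = 0
      · simp [hn]
      · simp [hn]
    rw [h1]
    have h2 : ∑ n ∈ s.filter (fun n => M n (σ n) ≠ 0), ‖M n (σ n) * ξ (σ n)‖ ^ ENNReal.toReal 2 ≤
        ∑ n ∈ s.filter (fun n => M n (σ n) ≠ 0), ‖ξ (σ n)‖ ^ ENNReal.toReal 2 := by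
      apply Finset.sum_le_sum
      intro n _
      apply Real.rpow_le_rpow (norm_nonneg _) _ (by simp)
      rw [norm_mul]
      calc _ ≤ 1 * ‖ξ (σ n)‖ := by
            gcongr
            exact h.le _ _
        _ = _ := one_mul _
    refine h2.trans ?_
    have h3 : ∑ n ∈ s.filter (fun n => M n (σ n) ≠ 0), ‖ξ (σ n)‖ ^ ENNReal.toReal 2 =
        ∑ m ∈ (s.filter (fun n => M n (σ n) ≠ 0)).image σ, ‖ξ m‖ ^ ENNReal.toReal 2 := by
      rw [Finset.sum_image]
      intro n hn n' hn' he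
      rw [Finset.mem_coe, Finset.mem_filter] at hn hn'
      rw [← he] at hn'
      exact h.col _ _ _ hn.2 hn'.2
    rw [h3]
    exact lp.sum_rpow_le_norm_rpow (by simp) ξ _
  have hmem : ∀ ξ : H2, Memℓp (fun n => M n (σ n) * ξ (σ n)) 2 := fun ξ => memℓp_gen' (hb ξ)
  let T : H2 →ₗ[ℂ] H2 :=
    { toFun := fun ξ => ⟨fun n => M n (σ n) * ξ (σ n), hmem ξ⟩
      map_add' := by
        intro ξ η
        ext n
        simp only [lp.coeFn_add, Pi.add_apply]
        exact mul_add _ _ _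
      map_smul' := by
        intro c ξ
        ext n
        simp only [lp.coeFn_smul, Pi.smul_apply, smul_eq_mul, RingHom.id_apply]
        change M n (σ n) * (c * ξ (σ n)) = c * (M n (σ n) * ξ (σ n))
        ring }
  have hT : ∀ ξ, ‖T ξ‖ ≤ 1 * ‖ξ‖ := by
    intro ξ
    rw [one_mul]
    exact lp.norm_le_of_forall_sum_le (by simp) (norm_nonneg _) (hb ξ)
  refine ⟨T.mkContinuous 1 hT, LinearMap.mkContinuous_norm_le _ zero_le_one _, fun n m => ?_⟩
  change M n (σ n) * (bv m) (σ n) = M n m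
  by_cases hnm : M n m = 0
  · rw [hnm]
    by_cases hs : σ n = m
    · rw [hs, hnm, zero_mul]
    · rw [bv, lp.single_apply_ne _ _ _ hs, mul_zero]
  · rw [hσ1 n m hnm, bv, lp.single_apply_self, mul_one]

theorem norm_le_of_PM {T : H2 →L[ℂ] H2} (h : PM (co T)) : ‖T‖ ≤ 1 := by
  obtain ⟨S, hS, hc⟩ := exists_op h
  rw [← ext_co hc]
  exact hS

theorem co_add (T S : H2 →L[ℂ] H2) (n m : ℕ) : co (T + S) n m = co T n m + co S n m := rfl

theorem co_sub (T S : H2 →L[ℂ] H2) (n m : ℕ) : co (T - S) n m = co T n m - co S n m := rfl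

theorem co_smul (c : ℂ) (T : H2 →L[ℂ] H2) (n m : ℕ) : co (c • T) n m = c * co T n m := rfl

theorem co_zero (n m : ℕ) : co (0 : H2 →L[ℂ] H2) n m = 0 := rfl

theorem co_sum {ι : Type*} (s : Finset ι) (T : ι → H2 →L[ℂ] H2) (n m : ℕ) :
    co (∑ i ∈ s, T i) n m = ∑ i ∈ s, co (T i) n m := by
  classical
  induction s using Finset.induction_on with
  | empty => simp [co_zero]
  | insert i s hi ih => rw [Finset.sum_insert hi, Finset.sum_insert hi, co_add, ih]

theorem norm_bv (m : ℕ) : ‖bv m‖ = 1 := by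
  rw [bv, lp.norm_single (by simp)]
  simp

theorem norm_co_le (T : H2 →L[ℂ] H2) (n m : ℕ) : ‖co T n m‖ ≤ ‖T‖ := by
  refine (lp.norm_apply_le_norm (by simp) _ n).trans ?_
  refine (T.le_opNorm _).trans ?_
  rw [norm_bv, mul_one]

theorem inner_bv (n : ℕ) (ξ : H2) : inner ℂ (bv n) ξ = ξ n := by
  rw [bv, lp.inner_single_left]
  simp

/-- An operator with only finitely many non-zero rows is compact. -/
theorem compact_of_rows {T : H2 →L[ℂ] H2} (s : Finset ℕ) (h : ∀ n ∉ s, ∀ m, co T n m = 0) :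
    IsCompactOperator T := by
  classical
  set S : H2 →L[ℂ] H2 := ∑ n ∈ s, (lp.singleContinuousLinearMap ℂ (fun _ : ℕ => ℂ) 2 n).comp
    ((lp.evalCLM ℂ (fun _ : ℕ => ℂ) 2 n).comp T) with hS
  have h1 : T = S := by
    apply ext_co
    intro n m
    rw [hS, co_sum]
    have h2 : ∀ k, co ((lp.singleContinuousLinearMap ℂ (fun _ : ℕ => ℂ) 2 k).comp
        ((lp.evalCLM ℂ (fun _ : ℕ => ℂ) 2 k).comp T)) n m = if n = k then co T k m else 0 := by
      intro k
      unfold co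
      simp only [ContinuousLinearMap.comp_apply, lp.singleContinuousLinearMap_apply]
      split_ifs with hk
      · subst hk
        rw [lp.single_apply_self]
        rfl
      · rw [lp.single_apply_ne _ _ _ hk]
    simp only [h2]
    rw [Finset.sum_ite_eq]
    split_ifs with hn
    · rfl
    · exact h n hn m
  rw [h1, hS]
  have h3 : ∀ s : Finset ℕ, (∑ n ∈ s, (lp.singleContinuousLinearMap ℂ (fun _ : ℕ => ℂ) 2 n).comp
    ((lp.evalCLM ℂ (fun _ : ℕ => ℂ) 2 n).comp T)) ∈ compactOperator (RingHom.id ℂ) H2 H2 := by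
    intro s
    apply Submodule.sum_mem
    intro n _
    change IsCompactOperator _
    have h4 : IsCompactOperator ((lp.evalCLM ℂ (fun _ : ℕ => ℂ) 2 n).comp T) :=
      isCompactOperator_of_locallyCompactSpace_dom _
    exact h4.clm_comp (lp.singleContinuousLinearMap ℂ (fun _ : ℕ => ℂ) 2 n)
  exact h3 s

theorem tendsto_coord (ξ : H2) : Filter.Tendsto (fun n => ‖ξ n‖) Filter.atTop (nhds 0) := by
  have h := ((lp.memℓp ξ).summable (by simp)).tendsto_atTop_zero
  have h2 : Filter.Tendsto (fun n => √(‖ξ n‖ ^ (2 : ℕ))) Filter.atTop (nhds √0) := by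
    apply (Real.continuous_sqrt.tendsto 0).comp
    simpa using h
  simpa using h2

/-- The matrix coefficients of a compact operator tend to zero uniformly along the rows. -/
theorem co_small {K : H2 →L[ℂ] H2} (hK : IsCompactOperator K) {ε : ℝ} (hε : 0 < ε) :
    ∃ N, ∀ n ≥ N, ∀ m, ‖co K n m‖ ≤ ε := by
  have h1 : TotallyBounded (K '' Metric.closedBall 0 1) := by
    obtain ⟨C, hC, hC2⟩ := hK.image_closedBall_subset_compact (f := (K : H2 →ₗ[ℂ] H2)) 1
    exact hC.totallyBounded.subset hC2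
  rw [Metric.totallyBounded_iff] at h1
  obtain ⟨t, ht, ht2⟩ := h1 (ε / 2) (by positivity)
  have h2 : ∀ ξ ∈ t, ∀ᶠ n in Filter.atTop, ‖ξ n‖ < ε / 2 := by
    intro ξ _
    exact (tendsto_coord ξ).eventually (gt_mem_nhds (by positivity))
  have h3 : ∀ᶠ n in Filter.atTop, ∀ ξ ∈ t, ‖ξ n‖ < ε / 2 := (Filter.eventually_all_finite ht).mpr h2
  obtain ⟨N, hN⟩ := Filter.eventually_atTop.mp h3
  refine ⟨N, fun n hn m => ?_⟩
  have h4 : K (bv m) ∈ K '' Metric.closedBall 0 1 :=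
    ⟨bv m, by simp [norm_bv], rfl⟩
  have h5 := ht2 h4
  simp only [Set.mem_iUnion, Metric.mem_ball, exists_prop] at h5
  obtain ⟨ξ, hξ, hξ2⟩ := h5
  have h6 : co K n m = ξ n + (K (bv m) - ξ) n := by
    rw [lp.coeFn_sub, Pi.sub_apply]
    unfold co
    ring
  rw [h6]
  refine (norm_add_le _ _).trans ?_
  have h7 := lp.norm_apply_le_norm (p := 2) (by simp) (K (bv m) - ξ) n
  rw [dist_eq_norm] at hξ2
  have h8 := hN n hn ξ hξ
  linarith

section General

variable {H : Type*} [NormedAddCommGroup H] [InnerProductSpace ℂ H]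

/-- The basis of `H` transported from the space of square summable sequences. -/
noncomputable def bH (U : H ≃ₗᵢ[ℂ] H2) (n : ℕ) : H := U.symm (bv n)

/-- Matrix coefficients with respect to the transported basis. -/
noncomputable def cH (U : H ≃ₗᵢ[ℂ] H2) (T : H →L[ℂ] H) (n m : ℕ) : ℂ :=
  inner ℂ (bH U n) (T (bH U m))

/-- The operator on square summable sequences corresponding to an operator on `H`. -/
noncomputable def cj (U : H ≃ₗᵢ[ℂ] H2) (T : H →L[ℂ] H) : H2 →L[ℂ] H2 :=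
  (U.toContinuousLinearEquiv : H →L[ℂ] H2).comp
    (T.comp (U.symm.toContinuousLinearEquiv : H2 →L[ℂ] H))

/-- The operator on `H` corresponding to an operator on square summable sequences. -/
noncomputable def cjs (U : H ≃ₗᵢ[ℂ] H2) (T : H2 →L[ℂ] H2) : H →L[ℂ] H :=
  (U.symm.toContinuousLinearEquiv : H2 →L[ℂ] H).comp
    (T.comp (U.toContinuousLinearEquiv : H →L[ℂ] H2))

theorem cj_apply (U : H ≃ₗᵢ[ℂ] H2) (T : H →L[ℂ] H) (ξ : H2) : cj U T ξ = U (T (U.symm ξ)) := rfl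

theorem cjs_apply (U : H ≃ₗᵢ[ℂ] H2) (T : H2 →L[ℂ] H2) (ξ : H) :
    cjs U T ξ = U.symm (T (U ξ)) := rfl

theorem cj_cjs (U : H ≃ₗᵢ[ℂ] H2) (T : H2 →L[ℂ] H2) : cj U (cjs U T) = T := by
  apply ContinuousLinearMap.ext
  intro ξ
  rw [cj_apply, cjs_apply]
  simp

theorem cjs_cj (U : H ≃ₗᵢ[ℂ] H2) (T : H →L[ℂ] H) : cjs U (cj U T) = T := by
  apply ContinuousLinearMap.ext
  intro ξ
  rw [cjs_apply, cj_apply]
  simp

theorem norm_cjs_le (U : H ≃ₗᵢ[ℂ] H2) (T : H2 →L[ℂ] H2) : ‖cjs U T‖ ≤ ‖T‖ := by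
  apply ContinuousLinearMap.opNorm_le_bound _ (norm_nonneg _)
  intro ξ
  rw [cjs_apply, LinearIsometryEquiv.norm_map]
  refine (T.le_opNorm _).trans ?_
  rw [LinearIsometryEquiv.norm_map]

theorem norm_cj_le (U : H ≃ₗᵢ[ℂ] H2) (T : H →L[ℂ] H) : ‖cj U T‖ ≤ ‖T‖ := by
  apply ContinuousLinearMap.opNorm_le_bound _ (norm_nonneg _)
  intro ξ
  rw [cj_apply, LinearIsometryEquiv.norm_map]
  refine (T.le_opNorm _).trans ?_
  rw [LinearIsometryEquiv.norm_map]

theorem cH_eq (U : H ≃ₗᵢ[ℂ] H2) (T : H →L[ℂ] H) (n m : ℕ) : cH U T n m = co (cj U T) n m := by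
  unfold cH co bH
  rw [cj_apply, ← inner_bv, ← U.inner_map_map]
  simp

theorem ext_cH (U : H ≃ₗᵢ[ℂ] H2) {T S : H →L[ℂ] H} (h : ∀ n m, cH U T n m = cH U S n m) :
    T = S := by
  rw [← cjs_cj U T, ← cjs_cj U S]
  congr 1
  apply ext_co
  intro n m
  rw [← cH_eq, ← cH_eq, h]

theorem exists_opH (U : H ≃ₗᵢ[ℂ] H2) {M : ℕ → ℕ → ℂ} (h : PM M) : ∃ T : H →L[ℂ] H, ‖T‖ ≤ 1 ∧
    ∀ n m, cH U T n m = M n m := by
  obtain ⟨T, hT, hc⟩ := exists_op h
  refine ⟨cjs U T, (norm_cjs_le U T).trans hT, fun n m => ?_⟩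
  rw [cH_eq, cj_cjs, hc]

theorem norm_le_of_PMH (U : H ≃ₗᵢ[ℂ] H2) {T : H →L[ℂ] H} (h : PM (cH U T)) : ‖T‖ ≤ 1 := by
  obtain ⟨S, hS, hc⟩ := exists_opH U h
  rw [← ext_cH U hc]
  exact hS

theorem cH_add (U : H ≃ₗᵢ[ℂ] H2) (T S : H →L[ℂ] H) (n m : ℕ) :
    cH U (T + S) n m = cH U T n m + cH U S n m := by
  unfold cH
  rw [_root_.add_apply, inner_add_right]

theorem cH_sub (U : H ≃ₗᵢ[ℂ] H2) (T S : H →L[ℂ] H) (n m : ℕ) :
    cH U (T - S) n m = cH U T n m - cH U S n m := by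
  unfold cH
  rw [_root_.sub_apply, inner_sub_right]

theorem cH_smul (U : H ≃ₗᵢ[ℂ] H2) (c : ℂ) (T : H →L[ℂ] H) (n m : ℕ) :
    cH U (c • T) n m = c * cH U T n m := by
  unfold cH
  rw [_root_.smul_apply, inner_smul_right]

theorem cH_zero (U : H ≃ₗᵢ[ℂ] H2) (n m : ℕ) : cH U (0 : H →L[ℂ] H) n m = 0 := by
  unfold cH
  simp

theorem cH_sum (U : H ≃ₗᵢ[ℂ] H2) {ι : Type*} (s : Finset ι) (T : ι → H →L[ℂ] H) (n m : ℕ) :
    cH U (∑ i ∈ s, T i) n m = ∑ i ∈ s, cH U (T i) n m := by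
  classical
  induction s using Finset.induction_on with
  | empty => simp [cH_zero]
  | insert i s hi ih => rw [Finset.sum_insert hi, Finset.sum_insert hi, cH_add, ih]

theorem norm_bH (U : H ≃ₗᵢ[ℂ] H2) (m : ℕ) : ‖bH U m‖ = 1 := by
  rw [bH, LinearIsometryEquiv.norm_map, norm_bv]

theorem norm_cH_le (U : H ≃ₗᵢ[ℂ] H2) (T : H →L[ℂ] H) (n m : ℕ) : ‖cH U T n m‖ ≤ ‖T‖ := by
  unfold cH
  refine (norm_inner_le_norm _ _).trans ?_
  rw [norm_bH, one_mul]
  refine (T.le_opNorm _).trans ?_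
  rw [norm_bH, mul_one]

theorem compact_of_rowsH (U : H ≃ₗᵢ[ℂ] H2) {T : H →L[ℂ] H} (s : Finset ℕ)
    (h : ∀ n ∉ s, ∀ m, cH U T n m = 0) : IsCompactOperator T := by
  have h1 : IsCompactOperator (cj U T) := by
    apply compact_of_rows s
    intro n hn m
    rw [← cH_eq, h n hn]
  have h2 : IsCompactOperator (cjs U (cj U T)) := by
    have h3 := (h1.comp_clm (U.toContinuousLinearEquiv : H →L[ℂ] H2)).clm_comp
      (U.symm.toContinuousLinearEquiv : H2 →L[ℂ] H)
    exact h3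
  rwa [cjs_cj] at h2

/-- The matrix coefficients of a compact operator tend to zero uniformly along the rows. -/
theorem cH_small (U : H ≃ₗᵢ[ℂ] H2) {K : H →L[ℂ] H} (hK : IsCompactOperator K) {ε : ℝ}
    (hε : 0 < ε) : ∃ N, ∀ n ≥ N, ∀ m, ‖cH U K n m‖ ≤ ε := by
  have h1 : IsCompactOperator (cj U K) :=
    (hK.comp_clm (U.symm.toContinuousLinearEquiv : H2 →L[ℂ] H)).clm_comp
      (U.toContinuousLinearEquiv : H →L[ℂ] H2)
  obtain ⟨N, hN⟩ := co_small h1 hε
  refine ⟨N, fun n hn m => ?_⟩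
  rw [cH_eq]
  exact hN n hn m

/-- A separable infinite-dimensional Hilbert space is the space of square summable sequences. -/
theorem exists_U (H : Type*) [NormedAddCommGroup H] [InnerProductSpace ℂ H] [CompleteSpace H]
    [TopologicalSpace.SeparableSpace H] (hH : ¬ FiniteDimensional ℂ H) :
    Nonempty (H ≃ₗᵢ[ℂ] H2) := by
  classical
  obtain ⟨w, b, hb⟩ := exists_hilbertBasis ℂ H
  have ho : Orthonormal ℂ ((↑) : w → H) := by
    rw [← hb]
    exact b.orthonormal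
  have hc : Countable w := by
    refine Pairwise.countable_of_isOpen_disjoint
      (s := fun x : w => Metric.ball (x : H) (1 / 2)) ?_ (fun x => Metric.isOpen_ball)
      (fun x => ⟨x, by simp⟩)
    intro x y hxy
    apply Metric.ball_disjoint_ball
    rw [dist_eq_norm]
    have h1 : ‖(x : H) - y‖ * ‖(x : H) - y‖ = 2 := by
      rw [@norm_sub_mul_self ℂ, ho.1 x, ho.1 y, ho.2 hxy]
      norm_num
    nlinarith [norm_nonneg ((x : H) - y)]
  have hi : Infinite w := by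
    by_contra hfin
    rw [not_infinite_iff_finite] at hfin
    have : Fintype w := Fintype.ofFinite w
    exact hH (Module.Basis.finiteDimensional_of_finite b.toOrthonormalBasis.toBasis)
  obtain ⟨e⟩ : Nonempty (ℕ ≃ w) := nonempty_equiv_of_countable
  have hv : Orthonormal ℂ (fun n : ℕ => (e n : H)) := ho.comp e e.injective
  have hsp : ⊤ ≤ (Submodule.span ℂ (Set.range (fun n : ℕ => (e n : H)))).topologicalClosure := by
    have h1 : Set.range (fun n : ℕ => (e n : H)) = Set.range b := by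
      rw [hb]
      ext x
      constructor
      · rintro ⟨n, rfl⟩
        exact ⟨e n, rfl⟩
      · rintro ⟨y, rfl⟩
        exact ⟨e.symm y, by simp⟩
    rw [h1, b.dense_span]
  exact ⟨(HilbertBasis.mk hv hsp).repr⟩

end General

end MP27ef93
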